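import Pool.Agent.helper74.VD.SpecA2
import Pool.Agent.helper80.VD.SpecF

/-!
# Row vd:ATKD (MP_07c750_an, project VD): Taylor expansion of a change of charts

The partial derivatives of smooth functions of the parameters are bounded on compact sets; the remainder of the phase vanishes to third order by the identity `M' = N E + E* M E`.
-/

set_option autoImplicit false

open scoped ContDiff Topology InnerProductSpace ComplexConjugate ENNReal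
open MeasureTheory Filter Set

namespace Pool.Agent.VD

noncomputable section

/-! ## 1. General lemmas -/

/-- partial derivatives of a smooth function are bounded on compact sets -/
theorem ATKD_par {A E W : Type} [NormedAddCommGroup A] [NormedSpace ℝ A] [NormedAddCommGroup E] [NormedSpace ℝ E] [NormedAddCommGroup W] [NormedSpace ℝ W]
    (F : A × E → W) (hF : ContDiff ℝ ∞ F) (S : Set (A × E)) (hS : IsCompact S) (n : ℕ) :
    ∃ C : ℝ, ∀ (a : A) (v : E), (a, v) ∈ S → ∀ j ≤ n, ‖iteratedFDeriv ℝ j (fun v => F (a, v)) v‖ ≤ C := by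
  have h1 : ∀ j : ℕ, ∃ C : ℝ, ∀ x ∈ S, ‖iteratedFDeriv ℝ j F x‖ ≤ C := fun j =>
    hS.exists_bound_of_continuousOn (hF.continuous_iteratedFDeriv (by exact_mod_cast le_top)).continuousOn
  choose c hc using h1
  refine ⟨∑ j ∈ Finset.range (n + 1), |c j|, fun a v hav j hj => ?_⟩
  have h2 : (fun v : E => F (a, v)) = (fun y : A × E => F ((a, 0) + y)) ∘ (ContinuousLinearMap.inr ℝ A E) := by
    funext v
    simp
  have h3 : ContDiff ℝ ∞ (fun y : A × E => F ((a, 0) + y)) := hF.comp (contDiff_const.add contDiff_id)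
  rw [h2, ContinuousLinearMap.iteratedFDeriv_comp_right (ContinuousLinearMap.inr ℝ A E) h3 v (i := j) (by exact_mod_cast le_top), iteratedFDeriv_comp_add_left]
  have h4 : (a, (0 : E)) + (ContinuousLinearMap.inr ℝ A E) v = (a, v) := by simp
  rw [h4]
  refine (ContinuousMultilinearMap.norm_compContinuousLinearMap_le _ _).trans ?_
  have h5 : ‖ContinuousLinearMap.inr ℝ A E‖ ≤ 1 := ContinuousLinearMap.norm_inr_le_one ℝ A E
  have h6 : ∏ _i : Fin j, ‖ContinuousLinearMap.inr ℝ A E‖ ≤ 1 := by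
    rw [Finset.prod_const]
    exact pow_le_one₀ (norm_nonneg _) h5
  calc ‖iteratedFDeriv ℝ j F (a, v)‖ * ∏ _i : Fin j, ‖ContinuousLinearMap.inr ℝ A E‖ ≤ ‖iteratedFDeriv ℝ j F (a, v)‖ * 1 := mul_le_mul_of_nonneg_left h6 (norm_nonneg _)
    _ ≤ |c j| := by
      rw [mul_one]
      exact (hc j _ hav).trans (le_abs_self _)
    _ ≤ _ := Finset.single_le_sum (f := fun j => |c j|) (fun i _ => abs_nonneg _) (Finset.mem_range.2 (by omega))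

/-- uniform constants for finite families -/
theorem ATKD_fin {Γ : Type} (S : Set Γ) (hS : S.Finite) (Q : Γ → ℝ → Prop) (h : ∀ κ ∈ S, ∃ C : ℝ, Q κ C) (hm : ∀ (κ : Γ) (C C' : ℝ), C ≤ C' → Q κ C → Q κ C') :
    ∃ C : ℝ, 1 ≤ C ∧ ∀ κ ∈ S, Q κ C := by
  choose f hf using h
  classical
  let g : Γ → ℝ := fun κ => if hκ : κ ∈ S then f κ hκ else 0
  obtain ⟨C, hC⟩ := (hS.image g).bddAbove
  refine ⟨max 1 C, le_max_left _ _, fun κ hκ => hm κ (f κ hκ) _ ?_ (hf κ hκ)⟩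
  have h1 : g κ ≤ C := hC ⟨κ, hκ, rfl⟩
  have h2 : g κ = f κ hκ := dif_pos hκ
  rw [h2] at h1
  exact h1.trans (le_max_right _ _)

theorem ATKD_step {d : ℕ} (f : V d → ℂ) (hf : ContDiff ℝ ∞ f) (C : ℝ) (j m : ℕ) (h : ∀ v : V d, ‖v‖ ≤ 1 → ‖iteratedFDeriv ℝ (j + 1) f v‖ ≤ C * ‖v‖ ^ m) (hC : 0 ≤ C)
    (h0 : iteratedFDeriv ℝ j f 0 = 0) : ∀ v : V d, ‖v‖ ≤ 1 → ‖iteratedFDeriv ℝ j f v‖ ≤ C * ‖v‖ ^ (m + 1) := by
  intro v hv
  have h1 := (convex_closedBall (0 : V d) ‖v‖).norm_image_sub_le_of_norm_fderiv_le (𝕜 := ℝ) (f := iteratedFDeriv ℝ j f) (C := C * ‖v‖ ^ m)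
    (fun x _ => (hf.differentiable_iteratedFDeriv (m := j) (by exact_mod_cast ENat.natCast_lt_top j)) x)
    (fun x hx => by
      rw [norm_fderiv_iteratedFDeriv]
      have hx' : ‖x‖ ≤ ‖v‖ := mem_closedBall_zero_iff.1 hx
      exact (h x (hx'.trans hv)).trans (mul_le_mul_of_nonneg_left (pow_le_pow_left₀ (norm_nonneg _) hx' m) hC))
    (Metric.mem_closedBall_self (norm_nonneg v) : (0 : V d) ∈ Metric.closedBall (0 : V d) ‖v‖) (mem_closedBall_zero_iff.2 le_rfl : v ∈ Metric.closedBall (0 : V d) ‖v‖)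
  rw [h0, sub_zero, sub_zero] at h1
  rw [pow_succ, ← mul_assoc]
  exact h1

/-- Taylor: third order vanishing -/
theorem ATKD_tay {d : ℕ} (f : V d → ℂ) (hf : ContDiff ℝ ∞ f) (C : ℝ) (hC : 0 ≤ C) (h3 : ∀ v : V d, ‖v‖ ≤ 1 → ‖iteratedFDeriv ℝ 3 f v‖ ≤ C)
    (h0 : f 0 = 0) (h1 : fderiv ℝ f 0 = 0) (h2 : fderiv ℝ (fderiv ℝ f) 0 = 0) :
    ∀ v : V d, ‖v‖ ≤ 1 → ∀ j ≤ 3, ‖iteratedFDeriv ℝ j f v‖ ≤ C * ‖v‖ ^ (3 - j) := by
  have e0 : iteratedFDeriv ℝ 0 f 0 = 0 := by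
    rw [← norm_eq_zero, norm_iteratedFDeriv_zero, h0, norm_zero]
  have e1 : iteratedFDeriv ℝ 1 f 0 = 0 := by
    rw [← norm_eq_zero, norm_iteratedFDeriv_one, h1, norm_zero]
  have e2 : iteratedFDeriv ℝ 2 f 0 = 0 := by
    rw [← norm_eq_zero, ← norm_iteratedFDeriv_fderiv, norm_iteratedFDeriv_one, h2, norm_zero]
  have s3 : ∀ v : V d, ‖v‖ ≤ 1 → ‖iteratedFDeriv ℝ (2 + 1) f v‖ ≤ C * ‖v‖ ^ 0 := fun v hv => by
    rw [pow_zero, mul_one]
    exact h3 v hv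
  have s2 := ATKD_step f hf C 2 0 s3 hC e2
  have s1 := ATKD_step f hf C 1 (0 + 1) s2 hC e1
  have s0 := ATKD_step f hf C 0 (0 + 1 + 1) s1 hC e0
  intro v hv j hj
  interval_cases j
  · exact s0 v hv
  · exact s1 v hv
  · exact s2 v hv
  · exact s3 v hv

/-- a bilinear form on pairs of vectors which vanishes on the diagonal and is symmetric is zero -/
theorem ATKD_pol {d : ℕ} (B : V d →L[ℝ] V d →L[ℝ] ℂ) (hs : ∀ u w, B u w = B w u) (h : ∀ w, B w w = 0) : B = 0 := by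
  ext u w
  have h1 := h (u + w)
  rw [map_add, map_add, add_apply, add_apply, h, h, hs w u] at h1
  have h2 : (2 : ℂ) * B u w = 0 := by
    rw [← h1]
    ring
  simpa using h2

/-! ## 2. The bilinear form of a matrix -/

/-- the bilinear form of a matrix -/
def ATKD_bl {d : ℕ} (M : MC d) (a b : V d) : ℂ := ∑ i, ∑ j, M i j * ((a i * b j : ℝ) : ℂ)

theorem ATKD_qf {d : ℕ} (M : MC d) (w : V d) : qf M w = ATKD_bl M w w := rfl

theorem ATKD_bl0 {d : ℕ} (M : MC d) (b : V d) : ATKD_bl M 0 b = 0 ∧ ATKD_bl M b 0 = 0 := by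
  constructor <;> simp [ATKD_bl]

theorem ATKD_coord {d : ℕ} (a : ℝ → V d) (a' : V d) (t : ℝ) (ha : HasDerivAt a a' t) (i : Fin d) : HasDerivAt (fun s => a s i) (a' i) t := by
  have h := (EuclideanSpace.proj i : EuclideanSpace ℝ (Fin d) →L[ℝ] ℝ).hasFDerivAt.comp_hasDerivAt t ha
  exact h

theorem ATKD_bld {d : ℕ} (M : MC d) (a b : ℝ → V d) (a' b' : V d) (t : ℝ) (ha : HasDerivAt a a' t) (hb : HasDerivAt b b' t) :
    HasDerivAt (fun s => ATKD_bl M (a s) (b s)) (ATKD_bl M a' (b t) + ATKD_bl M (a t) b') t := by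
  have h : HasDerivAt (fun s => ∑ i, ∑ j, M i j * ((a s i * b s j : ℝ) : ℂ)) (∑ i, ∑ j, M i j * ((a' i * b t j + a t i * b' j : ℝ) : ℂ)) t := by
    refine HasDerivAt.fun_sum fun i _ => HasDerivAt.fun_sum fun j _ => ?_
    exact HasDerivAt.const_mul _ ((ATKD_coord a a' t ha i).mul (ATKD_coord b b' t hb j)).ofReal_comp
  have e : (∑ i, ∑ j, M i j * ((a' i * b t j + a t i * b' j : ℝ) : ℂ)) = ATKD_bl M a' (b t) + ATKD_bl M (a t) b' := by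
    unfold ATKD_bl
    rw [← Finset.sum_add_distrib]
    refine Finset.sum_congr rfl fun i _ => ?_
    rw [← Finset.sum_add_distrib]
    refine Finset.sum_congr rfl fun j _ => ?_
    rw [Complex.ofReal_add]
    ring
  rw [← e]
  exact h

theorem ATKD_ind {d : ℕ} (ξ : V d) (a : ℝ → V d) (a' : V d) (t : ℝ) (ha : HasDerivAt a a' t) : HasDerivAt (fun s => ((⟪ξ, a s⟫_ℝ : ℝ) : ℂ)) ((⟪ξ, a'⟫_ℝ : ℝ) : ℂ) t := by
  have h := ((innerSL ℝ ξ).hasFDerivAt.comp_hasDerivAt t ha).ofReal_comp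
  exact h

/-! ## 3. Matrices of real maps -/

/-- the complexified vector -/
def ATKD_cv {d : ℕ} (w : V d) : Fin d → ℂ := fun i => ((w i : ℝ) : ℂ)

/-- the complexified matrix of a real map -/
def ATKD_mat {d : ℕ} (B : V d →L[ℝ] V d) : MC d := Matrix.of fun i j => ((B (EuclideanSpace.single j 1) i : ℝ) : ℂ)

theorem ATKD_exp {d : ℕ} (u : V d) : u = ∑ i : Fin d, u i • EuclideanSpace.single i (1 : ℝ) := by
  ext j
  simp [Finset.sum_apply, Pi.single_apply]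

theorem ATKD_mv {d : ℕ} (B : V d →L[ℝ] V d) (w : V d) : (ATKD_mat B).mulVec (ATKD_cv w) = ATKD_cv (B w) := by
  have h : B w = ∑ j : Fin d, w j • B (EuclideanSpace.single j 1) := by
    conv_lhs => rw [ATKD_exp w]
    rw [map_sum]
    exact Finset.sum_congr rfl fun j _ => by rw [map_smul]
  funext i
  have h2 : (B w) i = ∑ j : Fin d, B (EuclideanSpace.single j 1) i * w j := by
    rw [h]
    simp [Finset.sum_apply, mul_comm]
  simp only [Matrix.mulVec, dotProduct, ATKD_mat, ATKD_cv, Matrix.of_apply]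
  rw [h2, Complex.ofReal_sum]
  exact Finset.sum_congr rfl fun j _ => by rw [Complex.ofReal_mul]

theorem ATKD_inn {d : ℕ} (a b : V d) : ((⟪a, b⟫_ℝ : ℝ) : ℂ) = ATKD_cv a ⬝ᵥ ATKD_cv b := by
  simp only [dotProduct, ATKD_cv]
  rw [PiLp.inner_apply, Complex.ofReal_sum]
  refine Finset.sum_congr rfl fun j _ => ?_
  rw [← Complex.ofReal_mul]
  simp [mul_comm]

theorem ATKD_vm {d : ℕ} (B E : V d →L[ℝ] V d) (h : ∀ w u : V d, ⟪B u, w⟫_ℝ = ⟪u, E w⟫_ℝ) (w : V d) : Matrix.vecMul (ATKD_cv w) (ATKD_mat B) = ATKD_cv (E w) := by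
  funext j
  have h1 : Matrix.vecMul (ATKD_cv w) (ATKD_mat B) j = ATKD_cv w ⬝ᵥ ATKD_cv (B (EuclideanSpace.single j 1)) := rfl
  rw [h1, ← ATKD_inn, real_inner_comm, h, EuclideanSpace.inner_single_left]
  simp [ATKD_cv]

theorem ATKD_bld2 {d : ℕ} (M : MC d) (a b : V d) : ATKD_bl M a b = ATKD_cv a ⬝ᵥ M.mulVec (ATKD_cv b) := by
  simp only [ATKD_bl, dotProduct, Matrix.mulVec, ATKD_cv, Finset.mul_sum]
  refine Finset.sum_congr rfl fun i _ => Finset.sum_congr rfl fun j _ => ?_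
  rw [Complex.ofReal_mul]
  ring

theorem ATKD_mm {d : ℕ} (A E : V d →L[ℝ] V d) (h : ∀ u, A (E u) = u) : ATKD_mat A * ATKD_mat E = 1 := by
  ext i j
  have h1 : (ATKD_mat A * ATKD_mat E) i j = (ATKD_mat A).mulVec (ATKD_cv (E (EuclideanSpace.single j 1))) i := rfl
  rw [h1, ATKD_mv, h]
  simp only [ATKD_cv, Matrix.one_apply, PiLp.single_apply]
  split_ifs <;> simp

/-- the identity for the matrix of the transformed data -/
theorem ATKD_idm {d : ℕ} (A E N Q : V d →L[ℝ] V d) (Y0 P0 : MC d) (hY : Y0.det ≠ 0) (hAE : ∀ u, A (E u) = u) (hQ : ∀ w u : V d, ⟪Q u, w⟫_ℝ = ⟪u, E w⟫_ℝ) (w : V d) :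
    qf ((ATKD_mat N * Y0 + ATKD_mat Q * P0) * (ATKD_mat A * Y0)⁻¹) w = ((⟪w, N (E w)⟫_ℝ : ℝ) : ℂ) + qf (P0 * Y0⁻¹) (E w) := by
  have h1 : (ATKD_mat A)⁻¹ = ATKD_mat E := Matrix.inv_eq_right_inv (ATKD_mm A E hAE)
  have h2 : Y0 * Y0⁻¹ = 1 := Matrix.mul_nonsing_inv Y0 (isUnit_iff_ne_zero.2 hY)
  have h3 : (ATKD_mat N * Y0 + ATKD_mat Q * P0) * (ATKD_mat A * Y0)⁻¹ = ATKD_mat N * ATKD_mat E + ATKD_mat Q * ((P0 * Y0⁻¹) * ATKD_mat E) := by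
    rw [Matrix.mul_inv_rev, h1, add_mul]
    congr 1
    · calc ATKD_mat N * Y0 * (Y0⁻¹ * ATKD_mat E) = ATKD_mat N * ((Y0 * Y0⁻¹) * ATKD_mat E) := by
            simp only [Matrix.mul_assoc]
        _ = ATKD_mat N * ATKD_mat E := by rw [h2, Matrix.one_mul]
    · simp only [Matrix.mul_assoc]
  rw [h3, ATKD_qf, ATKD_bld2, Matrix.add_mulVec, dotProduct_add, ← Matrix.mulVec_mulVec, ← Matrix.mulVec_mulVec, ← Matrix.mulVec_mulVec, ATKD_mv, ATKD_mv, ← ATKD_inn, Matrix.dotProduct_mulVec, ATKD_vm Q E hQ, ATKD_qf, ATKD_bld2]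

theorem ATKD_det {d : ℕ} (A : V d →L[ℝ] V d) : (ATKD_mat A).det = (A.det : ℂ) := by
  have h : A.det = LinearMap.det (A : V d →ₗ[ℝ] V d) := rfl
  have h2 : A.det = (Matrix.of fun i j : Fin d => A (EuclideanSpace.single j 1) i).det := by
    rw [h, ← LinearMap.det_toMatrix (EuclideanSpace.basisFun (Fin d) ℝ).toBasis]
    congr 1
  rw [h2]
  have h3 := RingHom.map_det Complex.ofRealHom (Matrix.of fun i j : Fin d => A (EuclideanSpace.single j 1) i)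
  exact h3.symm

/-! ## 4. The lift and the phase -/

section
variable {d : ℕ} {Γ : Type} [Group Γ] [MulAction Γ (V d)]

theorem ATKD_star (hGLF : GLF_stmt) (hs : ∀ γ : Γ, ContDiff ℝ ∞ fun x : V d => γ • x) (κ : Γ) (p : P d) (w : V d) :
    ⟪(lft κ p).2, w⟫_ℝ = ⟪p.2, fderiv ℝ (fun y : V d => κ⁻¹ • y) (κ • p.1) w⟫_ℝ := by
  obtain ⟨-, -, -, hinv, hin, -⟩ := hGLF d Γ hs
  have h1 := hin κ p (fderiv ℝ (fun y : V d => κ⁻¹ • y) (κ • p.1) w)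
  rw [(hinv κ p.1 w).2] at h1
  exact h1

theorem ATKD_line {E W : Type} [NormedAddCommGroup E] [NormedSpace ℝ E] [NormedAddCommGroup W] [NormedSpace ℝ W] (f : E → W) (x v : E) (h : DifferentiableAt ℝ f x) :
    HasDerivAt (fun t : ℝ => f (x + t • v)) (fderiv ℝ f x v) 0 := h.hasFDerivAt.hasLineDerivAt v

theorem ATKD_dstar (hGLF : GLF_stmt) (hs : ∀ γ : Γ, ContDiff ℝ ∞ fun x : V d => γ • x) (κ : Γ) (q v : P d) (w : V d) :
    ⟪(fderiv ℝ (lft κ : P d → P d) q v).2, w⟫_ℝ = ⟪v.2, fderiv ℝ (fun y : V d => κ⁻¹ • y) (κ • q.1) w⟫_ℝ +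
      ⟪q.2, fderiv ℝ (fderiv ℝ (fun y : V d => κ⁻¹ • y)) (κ • q.1) (fderiv ℝ (fun y : V d => κ • y) q.1 v.1) w⟫_ℝ := by
  obtain ⟨-, -, hls, -⟩ := hGLF d Γ hs
  have h1 : HasDerivAt (fun t : ℝ => ⟪w, (lft κ (q + t • v)).2⟫_ℝ) (⟪w, (fderiv ℝ (lft κ : P d → P d) q v).2⟫_ℝ) 0 := by
    have h2 := ATKD_line (lft κ : P d → P d) q v (((hls κ).differentiable (by simp)) q)
    exact ((innerSL ℝ w).comp (ContinuousLinearMap.snd ℝ (V d) (V d))).hasFDerivAt.comp_hasDerivAt (0 : ℝ) h2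
  have hT := (hs κ⁻¹).fderiv_right (m := ∞) (by simp)
  have h3 : HasFDerivAt (fun y : V d => fderiv ℝ (fun y : V d => κ⁻¹ • y) (κ • y)) ((fderiv ℝ (fderiv ℝ (fun y : V d => κ⁻¹ • y)) (κ • q.1)).comp (fderiv ℝ (fun y : V d => κ • y) q.1)) q.1 :=
    HasFDerivAt.comp q.1 (((hT.differentiable (by simp)) (κ • q.1)).hasFDerivAt) (((hs κ).differentiable (by simp)) q.1).hasFDerivAt
  have h4 : HasDerivAt (fun t : ℝ => fderiv ℝ (fun y : V d => κ⁻¹ • y) (κ • (q.1 + t • v.1)) w) (fderiv ℝ (fderiv ℝ (fun y : V d => κ⁻¹ • y)) (κ • q.1) (fderiv ℝ (fun y : V d => κ • y) q.1 v.1) w) 0 :=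
    (ContinuousLinearMap.apply ℝ (V d) w).hasFDerivAt.comp_hasDerivAt (0 : ℝ) (h3.hasLineDerivAt v.1)
  have h5 : HasDerivAt (fun t : ℝ => q.2 + t • v.2) v.2 0 := by
    have := ((hasDerivAt_id (0 : ℝ)).smul_const v.2).const_add q.2
    simpa using this
  have h6 := h5.inner ℝ h4
  have h7 : (fun t : ℝ => ⟪q.2 + t • v.2, fderiv ℝ (fun y : V d => κ⁻¹ • y) (κ • (q.1 + t • v.1)) w⟫_ℝ) = fun t : ℝ => ⟪w, (lft κ (q + t • v)).2⟫_ℝ := by
    funext t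
    rw [real_inner_comm (lft κ (q + t • v)).2 w, ATKD_star hGLF hs κ (q + t • v) w]
    rfl
  rw [h7] at h6
  have h8 := h1.unique h6
  simp only [zero_smul, add_zero] at h8
  rw [real_inner_comm, h8, add_comm]

theorem ATKD_D1 (hs : ∀ γ : Γ, ContDiff ℝ ∞ fun x : V d => γ • x) (κ : Γ) (q : P d) (M M' : MC d) (v w : V d) :
    HasDerivAt (fun t : ℝ => rk κ q M M' (v + t • w)) (((⟪q.2, fderiv ℝ (fun y : V d => κ⁻¹ • y) (κ • q.1 + v) w⟫_ℝ : ℝ) : ℂ) +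
      (ATKD_bl M (fderiv ℝ (fun y : V d => κ⁻¹ • y) (κ • q.1 + v) w) (κ⁻¹ • (κ • q.1 + v) - q.1) + ATKD_bl M (κ⁻¹ • (κ • q.1 + v) - q.1) (fderiv ℝ (fun y : V d => κ⁻¹ • y) (κ • q.1 + v) w)) / 2 -
      (((⟪(lft κ q).2, w⟫_ℝ : ℝ) : ℂ) + (ATKD_bl M' w v + ATKD_bl M' v w) / 2)) 0 := by
  have h1 : HasDerivAt (fun t : ℝ => κ⁻¹ • (κ • q.1 + (v + t • w)) - q.1) (fderiv ℝ (fun y : V d => κ⁻¹ • y) (κ • q.1 + v) w) 0 := by
    have h2 := (ATKD_line (fun y : V d => κ⁻¹ • y) (κ • q.1 + v) w (((hs κ⁻¹).differentiable (by simp)) _)).sub_const q.1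
    refine h2.congr_of_eventuallyEq (Filter.Eventually.of_forall fun t => ?_)
    simp only [add_assoc]
  have h2 : HasDerivAt (fun t : ℝ => v + t • w) w 0 := by
    have := ((hasDerivAt_id (0 : ℝ)).smul_const w).const_add v
    simpa using this
  have h3 := ATKD_ind q.2 _ _ 0 h1
  have h4 := (ATKD_bld M _ _ _ _ 0 h1 h1).div_const 2
  have h5 := ATKD_ind (lft κ q).2 _ _ 0 h2
  have h6 := (ATKD_bld M' _ _ _ _ 0 h2 h2).div_const 2
  have h7 := (h3.add h4).sub (h5.add h6)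
  simp only [zero_smul, add_zero] at h7
  exact h7

theorem ATKD_D2 (hs : ∀ γ : Γ, ContDiff ℝ ∞ fun x : V d => γ • x) (κ : Γ) (q : P d) (M M' : MC d) (w : V d) (hf : ContDiff ℝ ∞ (rk κ q M M')) :
    fderiv ℝ (fderiv ℝ (rk κ q M M')) 0 w w = ((⟪q.2, fderiv ℝ (fderiv ℝ (fun y : V d => κ⁻¹ • y)) (κ • q.1) w w⟫_ℝ : ℝ) : ℂ) +
      qf M (fderiv ℝ (fun y : V d => κ⁻¹ • y) (κ • q.1) w) - qf M' w := by
  have hd : ∀ v w : V d, fderiv ℝ (rk κ q M M') v w = _ := fun v w => (ATKD_line (rk κ q M M') v w ((hf.differentiable (by simp)) v)).unique (ATKD_D1 hs κ q M M' v w)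
  have hf' := hf.fderiv_right (m := ∞) (by simp)
  have h1 : HasDerivAt (fun t : ℝ => fderiv ℝ (rk κ q M M') (0 + t • w) w) (fderiv ℝ (fderiv ℝ (rk κ q M M')) 0 w w) 0 :=
    (ContinuousLinearMap.apply ℝ ℂ w).hasFDerivAt.comp_hasDerivAt (0 : ℝ) (ATKD_line (fderiv ℝ (rk κ q M M')) 0 w ((hf'.differentiable (by simp)) 0))
  have hT := (hs κ⁻¹).fderiv_right (m := ∞) (by simp)
  have ha : HasDerivAt (fun t : ℝ => fderiv ℝ (fun y : V d => κ⁻¹ • y) (κ • q.1 + (0 + t • w)) w) (fderiv ℝ (fderiv ℝ (fun y : V d => κ⁻¹ • y)) (κ • q.1) w w) 0 := by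
    have h2 := (ContinuousLinearMap.apply ℝ (V d) w).hasFDerivAt.comp_hasDerivAt (0 : ℝ) (ATKD_line (fderiv ℝ (fun y : V d => κ⁻¹ • y)) (κ • q.1) w ((hT.differentiable (by simp)) _))
    simp only [zero_add]
    exact h2
  have hb : HasDerivAt (fun t : ℝ => κ⁻¹ • (κ • q.1 + (0 + t • w)) - q.1) (fderiv ℝ (fun y : V d => κ⁻¹ • y) (κ • q.1) w) 0 := by
    have h2 := (ATKD_line (fun y : V d => κ⁻¹ • y) (κ • q.1) w (((hs κ⁻¹).differentiable (by simp)) _)).sub_const q.1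
    simp only [zero_add]
    exact h2
  have hc : HasDerivAt (fun t : ℝ => (0 : V d) + t • w) w 0 := by
    have := ((hasDerivAt_id (0 : ℝ)).smul_const w).const_add (0 : V d)
    simpa using this
  have hw : HasDerivAt (fun _ : ℝ => w) (0 : V d) 0 := hasDerivAt_const _ _
  have h2 := ((ATKD_ind q.2 _ _ 0 ha).add (((ATKD_bld M _ _ _ _ 0 ha hb).add (ATKD_bld M _ _ _ _ 0 hb ha)).div_const 2)).sub
    ((hasDerivAt_const (0 : ℝ) (((⟪(lft κ q).2, w⟫_ℝ : ℝ) : ℂ))).add (((ATKD_bld M' _ _ _ _ 0 hw hc).add (ATKD_bld M' _ _ _ _ 0 hc hw)).div_const 2))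
  have h3 : (fun t : ℝ => fderiv ℝ (rk κ q M M') (0 + t • w) w) = _ := funext fun t => hd (0 + t • w) w
  rw [h3] at h1
  have h4 := h1.unique h2
  rw [h4]
  simp only [zero_smul, add_zero, inv_smul_smul, sub_self, (ATKD_bl0 _ _).1, (ATKD_bl0 _ _).2, ATKD_qf]
  ring

end

/-! ## 5. Smoothness in the parameters -/

/-- the parameters -/
abbrev ATKD_A (d : ℕ) : Type := (V d × V d × V d) × ((Fin d → Fin d → ℂ) × (Fin d → Fin d → ℂ))

section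
variable {d : ℕ} {Γ : Type} [Group Γ] [MulAction Γ (V d)]

/-- the phase as a function of all parameters -/
def ATKD_F (κ : Γ) (a : ATKD_A d × V d) : ℂ :=
  ((⟪a.1.1.2.1, κ⁻¹ • (κ • a.1.1.1 + a.2) - a.1.1.1⟫_ℝ : ℝ) : ℂ) + qf (Matrix.of a.1.2.1) (κ⁻¹ • (κ • a.1.1.1 + a.2) - a.1.1.1) / 2 -
    (((⟪a.1.1.2.2, a.2⟫_ℝ : ℝ) : ℂ) + qf (Matrix.of a.1.2.2) a.2 / 2)

theorem ATKD_qfs {E : Type} [NormedAddCommGroup E] [NormedSpace ℝ E] (M : E → Fin d → Fin d → ℂ) (w : E → V d) (hM : ContDiff ℝ ∞ M) (hw : ContDiff ℝ ∞ w) :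
    ContDiff ℝ ∞ (fun x => qf (Matrix.of (M x)) (w x)) := by
  unfold qf
  refine ContDiff.sum fun i _ => ContDiff.sum fun j _ => ?_
  refine ContDiff.mul ?_ ?_
  · exact contDiff_pi.1 (contDiff_pi.1 hM i) j
  · exact Complex.ofRealCLM.contDiff.comp (((contDiff_euclidean.1 hw) i).mul ((contDiff_euclidean.1 hw) j))

theorem ATKD_Fs (hs : ∀ γ : Γ, ContDiff ℝ ∞ fun x : V d => γ • x) (κ : Γ) : ContDiff ℝ ∞ (ATKD_F κ : ATKD_A d × V d → ℂ) := by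
  have h1 : ContDiff ℝ ∞ (fun a : ATKD_A d × V d => a.1.1.1) := contDiff_fst.fst.fst
  have h2 : ContDiff ℝ ∞ (fun a : ATKD_A d × V d => a.2) := contDiff_snd
  have h3 : ContDiff ℝ ∞ (fun a : ATKD_A d × V d => κ⁻¹ • (κ • a.1.1.1 + a.2) - a.1.1.1) :=
    ((hs κ⁻¹).comp (((hs κ).comp h1).add h2)).sub h1
  have h4 : ContDiff ℝ ∞ (fun a : ATKD_A d × V d => a.1.1.2.1) := contDiff_fst.fst.snd.fst
  have h5 : ContDiff ℝ ∞ (fun a : ATKD_A d × V d => a.1.1.2.2) := contDiff_fst.fst.snd.snd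
  have h6 : ContDiff ℝ ∞ (fun a : ATKD_A d × V d => a.1.2.1) := contDiff_fst.snd.fst
  have h7 : ContDiff ℝ ∞ (fun a : ATKD_A d × V d => a.1.2.2) := contDiff_fst.snd.snd
  exact ((Complex.ofRealCLM.contDiff.comp (h4.inner ℝ h3)).add ((ATKD_qfs _ _ h6 h3).div_const 2)).sub ((Complex.ofRealCLM.contDiff.comp (h5.inner ℝ h2)).add ((ATKD_qfs _ _ h7 h2).div_const 2))

theorem ATKD_qfc (M : MC d) (c : ℂ) (w : V d) : qf (Matrix.of fun i j => c * M i j) w = c * qf M w := by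
  simp only [qf, Matrix.of_apply, Finset.mul_sum]
  exact Finset.sum_congr rfl fun i _ => Finset.sum_congr rfl fun j _ => by ring

/-- scaling -/
theorem ATKD_sc (κ : Γ) (q : P d) (M M' : MC d) (s : ℝ) (hs : 0 < s) (v : V d) :
    rk κ q M M' v = s • ATKD_F κ (((q.1, s⁻¹ • q.2, s⁻¹ • (lft κ q).2), (fun i j => ((s⁻¹ : ℝ) : ℂ) * M i j, fun i j => ((s⁻¹ : ℝ) : ℂ) * M' i j)), v) := by
  unfold rk ATKD_F
  simp only
  rw [ATKD_qfc, ATKD_qfc, real_inner_smul_left, real_inner_smul_left, Complex.real_smul]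
  have h : (s : ℂ) ≠ 0 := by exact_mod_cast hs.ne'
  push_cast
  field_simp

theorem ATKD_dets {E : Type} [NormedAddCommGroup E] [NormedSpace ℝ E] (G : E → V d →L[ℝ] V d) (hG : ContDiff ℝ ∞ G) : ContDiff ℝ ∞ fun x => (G x).det := by
  have h : ∀ A : V d →L[ℝ] V d, A.det = (Matrix.of fun i j : Fin d => A (EuclideanSpace.single j 1) i).det := by
    intro A
    have h : A.det = LinearMap.det (A : V d →ₗ[ℝ] V d) := rfl
    rw [h, ← LinearMap.det_toMatrix (EuclideanSpace.basisFun (Fin d) ℝ).toBasis]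
    congr 1
  simp only [h, Matrix.det_apply]
  refine ContDiff.sum fun σ _ => ?_
  refine ContDiff.const_smul _ ?_
  refine contDiff_prod fun i _ => ?_
  simp only [Matrix.of_apply]
  have h1 : ContDiff ℝ ∞ fun x => G x (EuclideanSpace.single i 1) := hG.clm_apply contDiff_const
  exact (contDiff_euclidean.mp h1) (σ i)

theorem ATKD_det0 (hGLF : GLF_stmt) (hs : ∀ γ : Γ, ContDiff ℝ ∞ fun x : V d => γ • x) (κ : Γ) (y : V d) : (fderiv ℝ (fun y : V d => κ • y) y).det ≠ 0 := by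
  obtain ⟨-, -, -, hinv, -⟩ := hGLF d Γ hs
  have h1 : (fderiv ℝ (fun y : V d => κ⁻¹ • y) (κ • y)).comp (fderiv ℝ (fun y : V d => κ • y) y) = ContinuousLinearMap.id ℝ (V d) := by
    ext1 u
    exact (hinv κ y u).1
  have h2 : ((fderiv ℝ (fun y : V d => κ⁻¹ • y) (κ • y)).comp (fderiv ℝ (fun y : V d => κ • y) y)).det = (fderiv ℝ (fun y : V d => κ⁻¹ • y) (κ • y)).det * (fderiv ℝ (fun y : V d => κ • y) y).det :=
    LinearMap.det_comp _ _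
  rw [h1] at h2
  have h3 : (ContinuousLinearMap.id ℝ (V d)).det = 1 := LinearMap.det_id
  rw [h3] at h2
  intro h4
  rw [h4, mul_zero] at h2
  exact one_ne_zero h2

/-- the density factor -/
def ATKD_g (κ : Γ) (a : V d × V d) : ℝ := (Real.sqrt |(fderiv ℝ (fun y : V d => κ • y) (κ⁻¹ • (κ • a.1 + a.2))).det|)⁻¹

theorem ATKD_gs (hGLF : GLF_stmt) (hs : ∀ γ : Γ, ContDiff ℝ ∞ fun x : V d => γ • x) (κ : Γ) : ContDiff ℝ ∞ (ATKD_g κ : V d × V d → ℝ) := by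
  have h1 : ContDiff ℝ ∞ (fun a : V d × V d => κ⁻¹ • (κ • a.1 + a.2)) := (hs κ⁻¹).comp (((hs κ).comp contDiff_fst).add contDiff_snd)
  have h2 : ContDiff ℝ ∞ (fun a : V d × V d => (fderiv ℝ (fun y : V d => κ • y) (κ⁻¹ • (κ • a.1 + a.2))).det) :=
    ATKD_dets _ (((hs κ).fderiv_right (m := ∞) (by simp)).comp h1)
  have h3 : ∀ a : V d × V d, (fderiv ℝ (fun y : V d => κ • y) (κ⁻¹ • (κ • a.1 + a.2))).det ≠ 0 := fun a => ATKD_det0 hGLF hs κ _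
  have h4 : ContDiff ℝ ∞ (fun a : V d × V d => |(fderiv ℝ (fun y : V d => κ • y) (κ⁻¹ • (κ • a.1 + a.2))).det|) := by
    have h5 := (h2.pow 2).sqrt fun a => pow_ne_zero 2 (h3 a)
    simp only [Real.sqrt_sq_eq_abs] at h5
    exact h5
  exact (h4.sqrt fun a => abs_ne_zero.2 (h3 a)).inv fun a => (Real.sqrt_pos.2 (abs_pos.2 (h3 a))).ne'

end

/-! ## 6. The row -/

section
variable {d : ℕ} {Γ : Type} [Group Γ] [MulAction Γ (V d)]

/-- the data of the lift in terms of real matrices -/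
theorem ATKD_data (hGLF : GLF_stmt) (hs : ∀ γ : Γ, ContDiff ℝ ∞ fun x : V d => γ • x) (κ : Γ) (q : P d) (Y0 P0 : MC d) :
    Yf (lft κ) q Y0 P0 = ATKD_mat (fderiv ℝ (fun y : V d => κ • y) q.1) * Y0 ∧
    Pf (lft κ) q Y0 P0 = ATKD_mat ((ContinuousLinearMap.snd ℝ (V d) (V d)).comp ((fderiv ℝ (lft κ : P d → P d) q).comp (ContinuousLinearMap.inl ℝ (V d) (V d)))) * Y0 +
      ATKD_mat ((ContinuousLinearMap.snd ℝ (V d) (V d)).comp ((fderiv ℝ (lft κ : P d → P d) q).comp (ContinuousLinearMap.inr ℝ (V d) (V d)))) * P0 := by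
  obtain ⟨-, -, -, -, -, -, -, h1⟩ := hGLF d Γ hs
  refine ⟨?_, rfl⟩
  unfold Yf
  have e1 : (Matrix.of fun i j : Fin d => ((((fderiv ℝ (lft κ : P d → P d) q (EuclideanSpace.single j 1, 0)).1 i : ℝ)) : ℂ)) = ATKD_mat (fderiv ℝ (fun y : V d => κ • y) q.1) := by
    ext i j
    simp only [Matrix.of_apply, ATKD_mat]
    rw [h1]
  have e2 : (Matrix.of fun i j : Fin d => ((((fderiv ℝ (lft κ : P d → P d) q (0, EuclideanSpace.single j 1)).1 i : ℝ)) : ℂ)) = 0 := by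
    ext i j
    simp only [Matrix.of_apply]
    rw [h1]
    simp
  rw [e1, e2, Matrix.zero_mul, add_zero]

/-- the second derivative of the phase vanishes on the diagonal -/
theorem ATKD_van (hGLF : GLF_stmt) (hs : ∀ γ : Γ, ContDiff ℝ ∞ fun x : V d => γ • x) (κ : Γ) (q : P d) (Y0 P0 : MC d) (hY : Y0.det ≠ 0) (w : V d) :
    qf (Pf (lft κ) q Y0 P0 * (Yf (lft κ) q Y0 P0)⁻¹) w = ((⟪q.2, fderiv ℝ (fderiv ℝ (fun y : V d => κ⁻¹ • y)) (κ • q.1) w w⟫_ℝ : ℝ) : ℂ) +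
      qf (P0 * Y0⁻¹) (fderiv ℝ (fun y : V d => κ⁻¹ • y) (κ • q.1) w) := by
  obtain ⟨-, -, -, hinv, -⟩ := hGLF d Γ hs
  obtain ⟨e1, e2⟩ := ATKD_data hGLF hs κ q Y0 P0
  rw [e1, e2, ATKD_idm (fderiv ℝ (fun y : V d => κ • y) q.1) (fderiv ℝ (fun y : V d => κ⁻¹ • y) (κ • q.1)) _ _ Y0 P0 hY (fun u => (hinv κ q.1 u).2) ?_ w]
  · congr 2
    have h1 := ATKD_dstar hGLF hs κ q (fderiv ℝ (fun y : V d => κ⁻¹ • y) (κ • q.1) w, 0) w
    rw [(hinv κ q.1 w).2, inner_zero_left, zero_add, real_inner_comm] at h1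
    exact h1
  · intro w u
    have h1 := ATKD_dstar hGLF hs κ q (0, u) w
    rw [map_zero, map_zero] at h1
    simp only [zero_apply, inner_zero_right, add_zero] at h1
    exact h1

theorem ATKD_rk (hGLF : GLF_stmt) (hs : ∀ γ : Γ, ContDiff ℝ ∞ fun x : V d => γ • x) (κ : Γ) (q : P d) (Y0 P0 : MC d) (hY : Y0.det ≠ 0) (C : ℝ) (hC : 0 ≤ C)
    (h3 : ∀ v : V d, ‖v‖ ≤ 1 → ‖iteratedFDeriv ℝ 3 (rk κ q (P0 * Y0⁻¹) (Pf (lft κ) q Y0 P0 * (Yf (lft κ) q Y0 P0)⁻¹)) v‖ ≤ C)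
    (hf : ContDiff ℝ ∞ (rk κ q (P0 * Y0⁻¹) (Pf (lft κ) q Y0 P0 * (Yf (lft κ) q Y0 P0)⁻¹))) :
    ∀ v : V d, ‖v‖ ≤ 1 → ∀ j ≤ 3, ‖iteratedFDeriv ℝ j (rk κ q (P0 * Y0⁻¹) (Pf (lft κ) q Y0 P0 * (Yf (lft κ) q Y0 P0)⁻¹)) v‖ ≤ C * ‖v‖ ^ (3 - j) := by
  refine ATKD_tay _ hf C hC h3 ?_ ?_ ?_
  · simp only [rk, ATKD_qf, add_zero, inv_smul_smul, sub_self, (ATKD_bl0 _ _).1, inner_zero_right]
  · ext1 w
    have h1 := (ATKD_line (rk κ q (P0 * Y0⁻¹) (Pf (lft κ) q Y0 P0 * (Yf (lft κ) q Y0 P0)⁻¹)) 0 w ((hf.differentiable (by simp)) 0)).unique (ATKD_D1 hs κ q _ _ 0 w)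
    rw [h1, ATKD_star hGLF hs κ q w]
    simp only [add_zero, inv_smul_smul, sub_self, (ATKD_bl0 _ _).1, (ATKD_bl0 _ _).2]
    simp
  · refine ATKD_pol _ (fun u w => ?_) fun w => ?_
    · exact (hf.contDiffAt.isSymmSndFDerivAt (by simp only [minSmoothness_of_isRCLikeNormedField]; exact WithTop.coe_le_coe.2 (le_top : (2 : ℕ∞) ≤ ⊤))) u w
    · rw [ATKD_D2 hs κ q _ _ w hf, ATKD_van hGLF hs κ q Y0 P0 hY w]
      ring

end

theorem ATKD_proof (hASGF : ASGF_stmt) (hALSY : ALSY_stmt) (hAMVI : AMVI_stmt) (hGLF : GLF_stmt) (hAHLD : AHLD_stmt) : ATKD_stmt := by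
  intro d Γ _ _ K k B r Kd hK
  have hs := hK.smooth
  obtain ⟨hfin, -, C0, hC0, hb0⟩ := hASGF d Γ K hK r 0
  obtain ⟨r1, hr1⟩ : ∃ r1 : ℝ, r1 = max r (C0 + 1) := ⟨_, rfl⟩
  obtain ⟨-, hinv1, C1, hC1, hb1⟩ := hASGF d Γ K hK r1 Kd
  obtain ⟨r2, hr2⟩ : ∃ r2 : ℝ, r2 = r1 + |r| + C1 := ⟨_, rfl⟩
  obtain ⟨-, -, C2, hC2, hb2⟩ := hASGF d Γ K hK r2 0
  obtain ⟨C3, hC3, hb3⟩ := hAHLD d Γ K k B r1 Kd
  obtain ⟨C4, hC4, hlag, hly, -⟩ := hALSY d C0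
  have hrr1 : r ≤ r1 := by rw [hr1]; exact le_max_left _ _
  have hCr1 : C0 + 1 ≤ r1 := by rw [hr1]; exact le_max_right _ _
  have hr12 : r1 ≤ r2 := by rw [hr2]; linarith [abs_nonneg r]
  have hSG : ∀ (a b : ℝ), a ≤ b → ∀ κ : Γ, κ ∈ SG Γ d a → κ ∈ SG Γ d b := fun a b hab κ hκ => by
    obtain ⟨x, h1, h2⟩ := hκ
    exact ⟨x, h1.trans hab, h2.trans hab⟩
  -- the phase
  have hF : ∀ κ : Γ, κ ∈ SG Γ d r → ∃ C : ℝ, ∀ (a : ATKD_A d) (v : V d), (a, v) ∈ Metric.closedBall (0 : ATKD_A d × V d) (|r| + C0 + C4 ^ 3 + 1) → ∀ j ≤ max Kd 3, ‖iteratedFDeriv ℝ j (fun v => ATKD_F κ (a, v)) v‖ ≤ C :=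
    fun κ _ => ATKD_par (ATKD_F κ) (ATKD_Fs hs κ) _ (isCompact_closedBall _ _) _
  obtain ⟨C5, hC5, hb5⟩ := ATKD_fin (SG Γ d r) hfin _ hF (fun κ C C' h1 h2 a v hav j hj => (h2 a v hav j hj).trans h1)
  -- the density
  have hg : ∀ κ : Γ, κ ∈ SG Γ d r → ∃ C : ℝ, ∀ (x v : V d), (x, v) ∈ Metric.closedBall (0 : V d × V d) (|r| + 1) → ∀ j ≤ Kd, ‖iteratedFDeriv ℝ j (fun v => ATKD_g κ (x, v)) v‖ ≤ C :=
    fun κ _ => ATKD_par (ATKD_g κ) (ATKD_gs hGLF hs κ) _ (isCompact_closedBall _ _) _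
  obtain ⟨C6, hC6, hb6⟩ := ATKD_fin (SG Γ d r) hfin _ hg (fun κ C C' h1 h2 a v hav j hj => (h2 a v hav j hj).trans h1)
  obtain ⟨C, hC⟩ : ∃ C : ℝ, C = C0 + C1 + C2 + C3 + C4 + C5 + C6 := ⟨_, rfl⟩
  refine ⟨C, by linarith, ?_⟩
  intro G κ q L Y0 P0 hG hκ hq1 hq2 hL hlg
  have hr : 1 ≤ r := by linarith [norm_nonneg q.1]
  have habs : |r| = r := abs_of_nonneg (by linarith)
  have hL2 : 1 ≤ L ^ 2 := one_le_pow₀ hL
  obtain ⟨-, -, hsymp⟩ : True ∧ True ∧ ∀ (γ : Γ) (p v w : P d), omg (fderiv ℝ (lft γ : P d → P d) p v) (fderiv ℝ (lft γ : P d → P d) p w) = omg v w := by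
    obtain ⟨-, -, -, -, -, -, h, -⟩ := hGLF d Γ hs
    exact ⟨trivial, trivial, h⟩
  obtain ⟨-, -, -, hb0'⟩ := hb0 κ hκ q.1 (by linarith)
  obtain ⟨hl1, -, hl2⟩ := hb0' q q (by linarith) (by linarith) hq2 hq2
  have hl1a : ‖κ • q.1‖ ≤ C0 := (norm_fst_le (lft κ q : P d)).trans hl1
  have hl1b : ‖(lft κ q : P d).2‖ ≤ C0 := (norm_snd_le (lft κ q : P d)).trans hl1
  have hlag' := hlag (lft κ) q L Y0 P0 hL (hsymp κ q) hl2 hlg
  obtain ⟨hY0, -, -, -, hm0⟩ := hly L Y0 P0 hL hlg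
  have hCL : 1 ≤ C4 * L := by nlinarith
  obtain ⟨-, -, -, -, hm1⟩ := hly (C4 * L) _ _ hCL hlag'
  have hLag : Lag (C * L) (Yf (lft κ) q Y0 P0) (Pf (lft κ) q Y0 P0) := by
    have h1 : C4 * L ≤ C * L := mul_le_mul_of_nonneg_right (by linarith) (by linarith)
    exact ⟨hlag'.sym, hlag'.pos, fun i j => (hlag'.bdY i j).trans h1, fun i j => (hlag'.bdP i j).trans h1⟩
  obtain ⟨M, hM⟩ : ∃ M : MC d, M = P0 * Y0⁻¹ := ⟨_, rfl⟩
  obtain ⟨M', hM'⟩ : ∃ M' : MC d, M' = Pf (lft κ) q Y0 P0 * (Yf (lft κ) q Y0 P0)⁻¹ := ⟨_, rfl⟩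
  -- smoothness and bounds of the phase
  have hrk : rk κ q M M' = fun v => (L ^ 2) • ATKD_F κ ((((q.1, (L ^ 2)⁻¹ • q.2, (L ^ 2)⁻¹ • (lft κ q).2), (fun i j => (((L ^ 2)⁻¹ : ℝ) : ℂ) * M i j, fun i j => (((L ^ 2)⁻¹ : ℝ) : ℂ) * M' i j)) : ATKD_A d), v) := by
    funext v
    exact ATKD_sc κ q M M' (L ^ 2) (by positivity) v
  obtain ⟨a, ha⟩ : ∃ a : ATKD_A d, a = ((q.1, (L ^ 2)⁻¹ • q.2, (L ^ 2)⁻¹ • (lft κ q).2), (fun i j => (((L ^ 2)⁻¹ : ℝ) : ℂ) * M i j, fun i j => (((L ^ 2)⁻¹ : ℝ) : ℂ) * M' i j)) := ⟨_, rfl⟩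
  rw [← ha] at hrk
  have hFa : ContDiff ℝ ∞ (fun v : V d => ATKD_F κ (a, v)) := (ATKD_Fs hs κ).comp (contDiff_const.prodMk contDiff_id)
  have hsm : ContDiff ℝ ∞ (rk κ q M M') := by
    rw [hrk]
    exact hFa.const_smul (L ^ 2)
  have hLi : (L ^ 2)⁻¹ ≤ 1 := inv_le_one_of_one_le₀ hL2
  have hLi0 : 0 ≤ (L ^ 2)⁻¹ := by positivity
  have hC43 : 1 ≤ C4 ^ 3 := one_le_pow₀ hC4
  have hC44 : C4 ≤ C4 ^ 3 := le_self_pow₀ hC4 (by norm_num)
  have hvec : ∀ u : V d, ‖(L ^ 2)⁻¹ • u‖ ≤ ‖u‖ := fun u => by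
    rw [norm_smul, Real.norm_eq_abs, abs_of_nonneg hLi0]
    exact mul_le_of_le_one_left (norm_nonneg _) hLi
  have hmat : ∀ N : MC d, (∀ i j, ‖N i j‖ ≤ C4 ^ 3 * L ^ 2) → ‖(fun i j => (((L ^ 2)⁻¹ : ℝ) : ℂ) * N i j : Fin d → Fin d → ℂ)‖ ≤ C4 ^ 3 := by
    intro N hN
    refine (pi_norm_le_iff_of_nonneg (by linarith)).2 fun i => (pi_norm_le_iff_of_nonneg (by linarith)).2 fun j => ?_
    rw [norm_mul, Complex.norm_real, Real.norm_eq_abs, abs_of_nonneg hLi0]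
    calc (L ^ 2)⁻¹ * ‖N i j‖ ≤ (L ^ 2)⁻¹ * (C4 ^ 3 * L ^ 2) := mul_le_mul_of_nonneg_left (hN i j) hLi0
      _ = C4 ^ 3 := by field_simp
  have hav : ∀ v : V d, ‖v‖ ≤ 1 → (a, v) ∈ Metric.closedBall (0 : ATKD_A d × V d) (|r| + C0 + C4 ^ 3 + 1) := by
    intro v hv
    rw [mem_closedBall_zero_iff, ha, habs]
    refine max_le (max_le (max_le ?_ (max_le ?_ ?_)) (max_le ?_ ?_)) ?_
    · linarith
    · exact (hvec _).trans (by linarith)
    · exact (hvec _).trans (by linarith)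
    · refine (hmat M fun i j => ?_).trans (by linarith)
      rw [hM]
      exact (hm0 i j).trans (mul_le_mul_of_nonneg_right hC44 (by positivity))
    · refine (hmat M' fun i j => ?_).trans (by linarith)
      rw [hM']
      refine (hm1 i j).trans (le_of_eq ?_)
      ring
    · linarith
  have hder : ∀ v : V d, ‖v‖ ≤ 1 → ∀ j ≤ max Kd 3, ‖iteratedFDeriv ℝ j (rk κ q M M') v‖ ≤ C5 * L ^ 2 := by
    intro v hv j hj
    have h1 := hb5 κ hκ a v (hav v hv) j hj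
    rw [hrk, iteratedFDeriv_const_smul_apply' (hFa.contDiffAt.of_le (by exact_mod_cast le_top)), norm_smul, Real.norm_eq_abs, abs_of_nonneg (by positivity : (0 : ℝ) ≤ L ^ 2), mul_comm]
    exact mul_le_mul_of_nonneg_right h1 (by positivity)
  have hC5C : C5 * L ^ 2 ≤ C * L ^ 2 := mul_le_mul_of_nonneg_right (by linarith) (by positivity)
  have htay := ATKD_rk hGLF hs κ q Y0 P0 hY0 (C5 * L ^ 2) (by positivity) (fun v hv => by
    rw [← hM, ← hM']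
    exact hder v hv 3 (le_max_right _ _)) (by rw [← hM, ← hM']; exact hsm)
  rw [← hM, ← hM'] at htay ⊢
  obtain ⟨-, -, -, -, -, -, hdens, -⟩ := hAMVI d Γ K k B G hK hG
  obtain ⟨-, -, -, -, hdb⟩ := hb3 G hK hG
  obtain ⟨-, hdpos⟩ : True ∧ ∀ x, 0 < dens G x := by
    obtain ⟨-, -, h, -⟩ := hAMVI d Γ K k B G hK hG
    exact ⟨trivial, h⟩
  have hdsm : ContDiff ℝ ∞ (dens G) := by
    obtain ⟨-, h, -⟩ := hAMVI d Γ K k B G hK hG
    exact h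
  have hdsm' : ContDiff ℝ ∞ (fun y : V d => (Real.sqrt (dens G y))⁻¹) := (hdsm.sqrt fun x => (hdpos x).ne').inv fun x => (Real.sqrt_pos.2 (hdpos x)).ne'
  have hκ1 : κ ∈ SG Γ d r1 := hSG _ _ hrr1 κ hκ
  have hκ2 : κ ∈ SG Γ d r2 := hSG _ _ hr12 κ hκ1
  have hκi : κ⁻¹ ∈ SG Γ d r1 := hinv1 κ hκ1
  have hgv : ContDiff ℝ ∞ (fun v : V d => ATKD_g κ (q.1, v)) := (ATKD_gs hGLF hs κ).comp (contDiff_const.prodMk contDiff_id)
  refine ⟨fun v hv => ?_, hLag, ?_⟩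
  · have hz : ‖κ • q.1 + v‖ ≤ r1 := (norm_add_le _ _).trans (by linarith)
    have hz0 : ‖κ • q.1‖ ≤ r1 := by linarith
    obtain ⟨hi1, -, hi3, -⟩ := hb1 κ⁻¹ hκi (κ • q.1 + v) hz
    have e1 : κ⁻¹ • (κ • q.1 + v) - q.1 = κ⁻¹ • (κ • q.1 + v) - κ⁻¹ • (κ • q.1) := by rw [inv_smul_smul]
    have h1 : ‖κ⁻¹ • (κ • q.1 + v) - q.1‖ ≤ C1 * ‖v‖ := by
      have h2 := hi3 (κ • q.1) hz0
      rw [add_sub_cancel_left, ← e1] at h2
      exact h2
    have h3 : ‖κ⁻¹ • (κ • q.1 + v)‖ ≤ r2 := by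
      have h4 : ‖κ⁻¹ • (κ • q.1 + v)‖ ≤ ‖κ⁻¹ • (κ • q.1 + v) - q.1‖ + ‖q.1‖ := by
        have := norm_add_le (κ⁻¹ • (κ • q.1 + v) - q.1) q.1
        rwa [sub_add_cancel] at this
      have h5 : C1 * ‖v‖ ≤ C1 := mul_le_of_le_one_right (by linarith) hv
      rw [hr2, habs]
      linarith
    have h6 : ‖v‖ ≤ C2 * ‖κ⁻¹ • (κ • q.1 + v) - q.1‖ := by
      obtain ⟨-, -, h7, -⟩ := hb2 κ hκ2 (κ⁻¹ • (κ • q.1 + v)) h3
      have h8 := h7 q.1 (by linarith)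
      rw [smul_inv_smul, add_sub_cancel_left] at h8
      exact h8
    have hCpos : 0 < C := by linarith
    refine ⟨hsm.contDiffAt, ?_, ?_, ?_, ?_, ?_, ?_, hgv.contDiffAt, ?_, ?_⟩
    · intro j hj
      exact (htay v hv j hj).trans (mul_le_mul_of_nonneg_right hC5C (by positivity))
    · intro j hj
      exact (hder v hv j (hj.trans (le_max_left _ _))).trans hC5C
    · rw [inv_mul_le_iff₀ hCpos]
      exact h6.trans (mul_le_mul_of_nonneg_right (by linarith) (norm_nonneg _))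
    · exact h1.trans (mul_le_mul_of_nonneg_right (by linarith) (norm_nonneg _))
    · intro j hj
      have h7 : iteratedFDeriv ℝ j (fun v : V d => κ⁻¹ • (κ • q.1 + v)) v = iteratedFDeriv ℝ j (fun y : V d => κ⁻¹ • y) (κ • q.1 + v) := by
        rw [iteratedFDeriv_comp_add_left (𝕜 := ℝ) (f := fun y : V d => κ⁻¹ • y) j (κ • q.1)]
      rw [h7]
      exact (hi1 j hj).trans (by linarith)
    · have h7 := hdens κ (κ⁻¹ • (κ • q.1 + v))
      rw [smul_inv_smul] at h7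
      rw [← h7, Real.sqrt_mul (hdpos _).le, mul_inv, mul_comm]
    · exact (hdsm'.comp (contDiff_const.add contDiff_id)).contDiffAt
    · intro j hj
      constructor
      · have h7 := hb6 κ hκ q.1 v (by
          rw [mem_closedBall_zero_iff, habs]
          exact max_le (by linarith) (by linarith)) j hj
        exact h7.trans (by linarith)
      · have h7 : iteratedFDeriv ℝ j (fun v : V d => (Real.sqrt (dens G (κ • q.1 + v)))⁻¹) v = iteratedFDeriv ℝ j (fun y : V d => (Real.sqrt (dens G y))⁻¹) (κ • q.1 + v) := by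
          rw [iteratedFDeriv_comp_add_left (𝕜 := ℝ) (f := fun y : V d => (Real.sqrt (dens G y))⁻¹) j (κ • q.1)]
        rw [h7]
        exact (((hdb _ hz).2.1 j hj).2.1).trans (by linarith)
  · rw [(ATKD_data hGLF hs κ q Y0 P0).1, Matrix.det_mul, ATKD_det]

end

end Pool.Agent.VD
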