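import Pool.Agent.helper11.VD.Spec3d

/-!
# Rows vd:I6D, vd:IJPD (MP_07c750_an, project VD): energies and jumps of the big steps

Induction over the unit steps.
-/

set_option autoImplicit false

open scoped ContDiff Topology InnerProductSpace ENNReal
open MeasureTheory Filter Set

namespace Pool.Agent.VD

noncomputable section

variable {d : ℕ}

theorem IJPD_adm (C C1 : ℝ) (A : Par) (h : C1 ≤ C) (hC : 0 < C) (hA : Adm C A) : C1 * A.e2 ≤ 1 ∧ C1 * A.z2 ≤ 1 ∧ 0 < A.z2 := by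
  have h1 : 0 < A.z1 := lt_of_lt_of_le (mul_pos hC hA.z) hA.z1
  have h2 : 0 < A.z2 := lt_of_lt_of_le (mul_pos hC h1) hA.z2
  exact ⟨(mul_le_mul_of_nonneg_right h hA.e2.le).trans hA.e2', (mul_le_mul_of_nonneg_right h h2.le).trans hA.up, h2⟩

/-- points of the window have `nrm ≤ 3/2` -/
theorem IJPD_nrm (hGXH : GXH_stmt) (G : V d → V d →L[ℝ] V d) (hG : IsMetric G) (p : P d) (h : |Ep G p| ≤ 1 / 8) : nrm G p ≤ 3 / 2 := by
  obtain ⟨-, -, -, h1, -⟩ := hGXH d G hG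
  have h2 := h1 p
  have h3 := (abs_le.1 h).2
  unfold Ep at h3
  have h4 : nrm G p ^ 2 ≤ 5 / 4 := by
    rw [h2]
    linarith
  by_contra h5
  push Not at h5
  nlinarith

theorem IJPD_win (R : ℝ) (hR : (16 : ℝ) ^ 4 ≤ R) : 2 * R ^ (-(1 / 4) : ℝ) ≤ 1 / 8 := by
  have h1 : R ^ (-(1 / 4) : ℝ) ≤ ((16 : ℝ) ^ 4) ^ (-(1 / 4) : ℝ) :=
    Real.rpow_le_rpow_of_nonpos (by norm_num) hR (by norm_num)
  have h2 : ((16 : ℝ) ^ 4) ^ (-(1 / 4) : ℝ) = 1 / 16 := by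
    rw [← Real.rpow_natCast, ← Real.rpow_mul (by norm_num)]
    norm_num
  rw [h2] at h1
  linarith

/-- one unit step: energies -/
theorem IJPD_ene (hGXH : GXH_stmt) (hGUX : GUX_stmt) (hGCF : GCF_stmt) (hGUN : GUN_stmt) (hGHL : GHL_stmt) (Γ : Type) [Group Γ] [MulAction Γ (V d)] (K : Set (V d)) (r0 k : ℝ) (B : ℕ → ℕ → ℝ)
    (hK : FdK Γ K) : ∃ C : ℝ, 1 ≤ C ∧ ∀ (R r : ℝ) (G : V d → V d →L[ℝ] V d) (Φ : ℝ → P d → P d), (16 : ℝ) ^ 4 ≤ R → r ≤ 1 → Cls Γ K k B G → IsFlow G Φ →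
      ∀ y y' : YS Γ d, St G Φ r0 r R y y' → |Ep G y.2 - Ep G y'.2| ≤ C * r := by
  obtain ⟨m', -, hm'⟩ := hGCF d Γ K k B hK ⌈r0⌉₊ 1
  obtain ⟨C, hC⟩ := hGUX d B (m' + 1) 0 (m' + 1)
  refine ⟨2 * |C| + 1, by linarith [abs_nonneg C], ?_⟩
  intro R r G Φ hR hr hG hΦ y y' hst
  obtain ⟨hy, hy', hd⟩ := hst
  have hw := IJPD_win R hR
  have hn : nrm G y.2 ≤ 3 / 2 := IJPD_nrm hGXH G hG.met _ (hy.2.trans hw)
  obtain ⟨ha1, ha2⟩ := hm' G Φ hG hΦ y.2 1 (hy.1.trans (Nat.le_ceil r0)) (by linarith) (by norm_num)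
  obtain ⟨hs, -, -, -, -, hfd, -⟩ := hGXH d G hG.met
  have e1 : Ham G (Φ 1 y.2) = Ham G y.2 := ((hGUN d G Φ hG.met hΦ).2.2.1 1 y.2).1
  have e2 : Ham G (rel y y') = Ham G y'.2 := ((hGHL d Γ G hG.met hK.smooth hG.isom).1 _ y'.2).1
  have hdist : ‖rel y y' - Φ 1 y.2‖ ≤ r := by
    rw [← dist_eq_norm, dist_comm]
    exact hd.le
  have hb1 : ‖Φ 1 y.2‖ ≤ m' + 1 := by
    rw [Prod.norm_def]
    exact max_le (by linarith) (by linarith)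
  have hb2 : ‖rel y y'‖ ≤ m' + 1 := by
    have h1 : ‖Φ 1 y.2‖ ≤ m' := by
      rw [Prod.norm_def]
      exact max_le ha1 ha2
    calc ‖rel y y'‖ = ‖(rel y y' - Φ 1 y.2) + Φ 1 y.2‖ := by rw [sub_add_cancel]
      _ ≤ ‖rel y y' - Φ 1 y.2‖ + ‖Φ 1 y.2‖ := norm_add_le _ _
      _ ≤ m' + 1 := by linarith
  have hb : ∀ p ∈ Metric.closedBall (0 : P d) (m' + 1), ‖fderiv ℝ (Ham G) p‖ ≤ 2 * |C| := by
    intro p hp
    rw [mem_closedBall_zero_iff] at hp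
    have h1 := hC G hG.met hG.lo hG.bd p (by push_cast; exact (le_max_left _ _).trans (by rwa [Prod.norm_def] at hp)) ((le_max_right _ _).trans (by rwa [Prod.norm_def] at hp))
    rw [norm_iteratedFDeriv_zero] at h1
    refine ContinuousLinearMap.opNorm_le_bound _ (by positivity) fun q => ?_
    rw [hfd, Real.norm_eq_abs]
    have h2 : ‖vel G p‖ ≤ |C| := ((norm_fst_le (XH G p)).trans h1).trans (le_abs_self C)
    have h3 : ‖(XH G p).2‖ ≤ |C| := ((norm_snd_le (XH G p)).trans h1).trans (le_abs_self C)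
    have h4 : ‖q.1‖ ≤ ‖q‖ := norm_fst_le q
    have h5 : ‖q.2‖ ≤ ‖q‖ := norm_snd_le q
    have h6 : |⟪vel G p, q.2⟫_ℝ| ≤ |C| * ‖q‖ := (abs_real_inner_le_norm _ _).trans (mul_le_mul h2 h5 (norm_nonneg _) (abs_nonneg _))
    have h7 : |⟪(XH G p).2, q.1⟫_ℝ| ≤ |C| * ‖q‖ := (abs_real_inner_le_norm _ _).trans (mul_le_mul h3 h4 (norm_nonneg _) (abs_nonneg _))
    have h8 := abs_sub (⟪vel G p, q.2⟫_ℝ) (⟪(XH G p).2, q.1⟫_ℝ)
    linarith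
  have hmv := (convex_closedBall (0 : P d) (m' + 1)).norm_image_sub_le_of_norm_fderiv_le (fun p _ => (hs.differentiable (by simp)).differentiableAt) hb
    (mem_closedBall_zero_iff.2 hb1) (mem_closedBall_zero_iff.2 hb2)
  rw [e1, e2, Real.norm_eq_abs] at hmv
  have h9 : |Ep G y.2 - Ep G y'.2| = |Ham G y'.2 - Ham G y.2| := by
    unfold Ep
    rw [abs_sub_comm]
    congr 1
    ring
  rw [h9]
  have hr0 : 0 ≤ r := (norm_nonneg _).trans hdist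
  calc |Ham G y'.2 - Ham G y.2| ≤ 2 * |C| * ‖rel y y' - Φ 1 y.2‖ := hmv
    _ ≤ 2 * |C| * r := mul_le_mul_of_nonneg_left hdist (by positivity)
    _ ≤ (2 * |C| + 1) * r := mul_le_mul_of_nonneg_right (by linarith) hr0

/-- one unit step: distances -/
theorem IJPD_dis (hGXH : GXH_stmt) (hDPP : DPP_stmt) (hGCF : GCF_stmt) (hGLF : GLF_stmt) (hGEQ : GEQ_stmt) (Γ : Type) [Group Γ] [MulAction Γ (V d)] (K : Set (V d)) (r0 k : ℝ) (B : ℕ → ℕ → ℝ) (η : V d → ℝ)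
    (hK : FdK Γ K) (hη : Ctf K η) : ∃ C : ℝ, 1 ≤ C ∧ ∀ (R r : ℝ) (G : V d → V d →L[ℝ] V d) (Φ : ℝ → P d → P d), (16 : ℝ) ^ 4 ≤ R → r ≤ 1 → Cls Γ K k B G → IsFlow G Φ →
      ∀ y y' : YS Γ d, St G Φ r0 r R y y' → dP Γ η (Φ 1 (prY y)) (prY y') ≤ C * r := by
  obtain ⟨m', -, hm'⟩ := hGCF d Γ K k B hK ⌈r0⌉₊ 1
  obtain ⟨-, -, -, -, -, hinv, -, -, -, hup, -⟩ := hDPP d Γ K η hK hη
  obtain ⟨C, hC1, hC⟩ := hup (m' + 1) (m' + 1)
  refine ⟨C, hC1, ?_⟩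
  intro R r G Φ hR hr hG hΦ y y' hst
  obtain ⟨hy, hy', hd⟩ := hst
  have hw := IJPD_win R hR
  have hn : nrm G y.2 ≤ 3 / 2 := IJPD_nrm hGXH G hG.met _ (hy.2.trans hw)
  obtain ⟨ha1, ha2⟩ := hm' G Φ hG hΦ y.2 1 (hy.1.trans (Nat.le_ceil r0)) (by linarith) (by norm_num)
  obtain ⟨-, hmul, -⟩ := hGLF d Γ hK.smooth
  have e1 : Φ 1 (prY y) = lft y.1 (Φ 1 y.2) := hGEQ d Γ G Φ hG.met hK.smooth hG.isom hΦ _ _ _
  have e2 : prY y' = lft y.1 (rel y y') := by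
    unfold prY rel
    rw [← hmul]
    congr 1
    group
  rw [e1, e2, hinv]
  have hdist : ‖Φ 1 y.2 - rel y y'‖ ≤ r := by
    rw [← dist_eq_norm]
    exact hd.le
  have hq : (rel y y') = Φ 1 y.2 - (Φ 1 y.2 - rel y y') := by abel
  have h1 : ‖(rel y y').1‖ ≤ m' + 1 := by
    have h2 : ‖(Φ 1 y.2 - rel y y').1‖ ≤ r := (norm_fst_le _).trans hdist
    have h3 : (rel y y').1 = (Φ 1 y.2).1 - (Φ 1 y.2 - rel y y').1 := by
      rw [Prod.fst_sub]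
      abel
    rw [h3]
    exact (norm_sub_le _ _).trans (by linarith)
  have h2 : ‖(rel y y').2‖ ≤ m' + 1 := by
    have h2 : ‖(Φ 1 y.2 - rel y y').2‖ ≤ r := (norm_snd_le _).trans hdist
    have h3 : (rel y y').2 = (Φ 1 y.2).2 - (Φ 1 y.2 - rel y y').2 := by
      rw [Prod.snd_sub]
      abel
    rw [h3]
    exact (norm_sub_le _ _).trans (by linarith)
  refine (hC _ _ (by push_cast; linarith) (by push_cast; exact h1) (by linarith) h2).trans ?_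
  exact mul_le_mul_of_nonneg_left hdist (by linarith)

theorem IJPD_rc1 {Γ : Type} [Group Γ] [MulAction Γ (V d)] (G : V d → V d →L[ℝ] V d) (Φ : ℝ → P d → P d) (r0 r R : ℝ) (C : ℝ)
    (h : ∀ y y' : YS Γ d, St G Φ r0 r R y y' → |Ep G y.2 - Ep G y'.2| ≤ C * r) :
    ∀ (n : ℕ) (y y' : YS Γ d), RC G Φ r0 r R n y y' → y ∈ GW Γ G r0 2 R ∧ y' ∈ GW Γ G r0 2 R ∧ |Ep G y.2 - Ep G y'.2| ≤ (n + 1) * (C * r) := by
  intro n
  induction n with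
  | zero =>
    intro y y' hst
    refine ⟨hst.1, hst.2.1, ?_⟩
    have := h y y' hst
    push_cast
    linarith
  | succ n ih =>
    intro y y' hst
    obtain ⟨x, h1, h2⟩ := hst
    obtain ⟨-, h4, h5⟩ := ih x y' h2
    refine ⟨h1.1, h4, ?_⟩
    have h6 := h y x h1
    have h7 := abs_sub_le (Ep G y.2) (Ep G x.2) (Ep G y'.2)
    push_cast
    linarith

theorem IJPD_rc2 {Γ : Type} [Group Γ] [MulAction Γ (V d)] (η : V d → ℝ) (G : V d → V d →L[ℝ] V d) (Φ : ℝ → P d → P d) (r0 r R : ℝ) (C Cg : ℝ) (hC : 0 ≤ C * r) (hCg : 1 ≤ Cg)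
    (hadd : ∀ (s t : ℝ) (p : P d), Φ (s + t) p = Φ s (Φ t p)) (htri : ∀ p q z : P d, dP Γ η p z ≤ dP Γ η p q + dP Γ η q z)
    (hgr : ∀ (y y' : YS Γ d) (t : ℝ), y ∈ GW Γ G r0 2 R → y' ∈ GW Γ G r0 2 R → dP Γ η (Φ t (Φ 1 (prY y))) (Φ t (prY y')) ≤ Cg * Real.exp (Cg * |t|) * dP Γ η (Φ 1 (prY y)) (prY y'))
    (h : ∀ y y' : YS Γ d, St G Φ r0 r R y y' → dP Γ η (Φ 1 (prY y)) (prY y') ≤ C * r) :
    ∀ (n : ℕ) (y y' : YS Γ d), RC G Φ r0 r R n y y' → dP Γ η (Φ (n + 1) (prY y)) (prY y') ≤ (n + 1) * (Cg * Real.exp (Cg * n) * (C * r)) := by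
  intro n
  induction n with
  | zero =>
    intro y y' hst
    have h1 := h y y' hst
    have h2 : C * r ≤ Cg * (C * r) := le_mul_of_one_le_left hC hCg
    push_cast
    rw [mul_zero, Real.exp_zero, zero_add, mul_one, one_mul]
    exact h1.trans h2
  | succ n ih =>
    intro y y' hst
    obtain ⟨x, h1, h2⟩ := hst
    have h3 := ih x y' h2
    have h4 := hgr y x (n + 1) h1.1 h1.2.1
    have h5 := h y x h1
    have h6 : Φ (((n + 1 : ℕ) : ℝ) + 1) (prY y) = Φ (n + 1) (Φ 1 (prY y)) := by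
      rw [← hadd]
      push_cast
      rfl
    rw [h6]
    have h7 : |(n : ℝ) + 1| = n + 1 := abs_of_pos (by positivity)
    rw [h7] at h4
    have h8 : Real.exp (Cg * n) ≤ Real.exp (Cg * (n + 1)) := Real.exp_le_exp.2 (mul_le_mul_of_nonneg_left (by linarith) (by linarith))
    have h9 : 0 ≤ Cg * Real.exp (Cg * (n + 1)) := by positivity
    have h10 : Cg * Real.exp (Cg * (n + 1)) * dP Γ η (Φ 1 (prY y)) (prY x) ≤ Cg * Real.exp (Cg * (n + 1)) * (C * r) := mul_le_mul_of_nonneg_left h5 h9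
    have h11 : Cg * Real.exp (Cg * n) * (C * r) ≤ Cg * Real.exp (Cg * (n + 1)) * (C * r) :=
      mul_le_mul_of_nonneg_right (mul_le_mul_of_nonneg_left h8 (by linarith)) hC
    have h12 : ((n : ℝ) + 1) * (Cg * Real.exp (Cg * n) * (C * r)) ≤ ((n : ℝ) + 1) * (Cg * Real.exp (Cg * (n + 1)) * (C * r)) := mul_le_mul_of_nonneg_left h11 (by positivity)
    refine (htri _ (Φ (n + 1) (prY x)) _).trans ?_
    push_cast
    linarith

theorem IJPD_num (C0 : ℝ) : ∃ R0 : ℝ, 1 ≤ R0 ∧ ∀ R : ℝ, R0 ≤ R → C0 ≤ R ^ (1 / 20 : ℝ) ∧ Real.log R + 1 ≤ R ^ (1 / 20 : ℝ) ∧ (16 : ℝ) ^ 4 ≤ R := by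
  have f1 : ∀ᶠ R : ℝ in atTop, C0 ≤ R ^ (1 / 20 : ℝ) := (tendsto_rpow_atTop (by norm_num)).eventually (eventually_ge_atTop C0)
  have f2 : ∀ᶠ R : ℝ in atTop, Real.log R + 1 ≤ R ^ (1 / 20 : ℝ) := by
    have h1 : (fun R : ℝ => Real.log R) =o[atTop] fun R => R ^ (1 / 20 : ℝ) := isLittleO_log_rpow_atTop (by norm_num)
    have h2 := h1.bound (show (0 : ℝ) < 1 / 2 by norm_num)
    have h3 : ∀ᶠ R : ℝ in atTop, 2 ≤ R ^ (1 / 20 : ℝ) := (tendsto_rpow_atTop (by norm_num)).eventually (eventually_ge_atTop 2)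
    filter_upwards [h2, h3, eventually_ge_atTop 1] with R h4 h5 h6
    rw [Real.norm_of_nonneg (Real.log_nonneg h6), Real.norm_of_nonneg (by linarith)] at h4
    linarith
  obtain ⟨R1, hR1⟩ := Filter.eventually_atTop.mp (f1.and (f2.and (eventually_ge_atTop ((16 : ℝ) ^ 4))))
  exact ⟨max 1 R1, le_max_left _ _, fun R hR => hR1 R ((le_max_right _ _).trans hR)⟩

theorem IJPD_r (A : Par) (R : ℝ) (hR : 1 ≤ R) (h20 : 20 * A.z2 ≤ 1) : A.r R ≤ R ^ (-(9 / 20) : ℝ) ∧ A.r R ≤ 1 ∧ 0 < A.r R := by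
  have h0 : 0 < R := by linarith
  have h1 : A.r R ≤ R ^ (-(9 / 20) : ℝ) := by
    unfold Par.r
    exact Real.rpow_le_rpow_of_exponent_le hR (by linarith)
  exact ⟨h1, h1.trans (Real.rpow_le_one_of_one_le_of_nonpos hR (by norm_num)), Real.rpow_pos_of_pos h0 _⟩

theorem I6D_proof (hGXH : GXH_stmt) (hGUX : GUX_stmt) (hGCF : GCF_stmt) (hGUN : GUN_stmt) (hGHL : GHL_stmt) : I6D_stmt := by
  intro d Γ _ _ K r0 k B _ hK _
  obtain ⟨C, hC1, hC⟩ := IJPD_ene hGXH hGUX hGCF hGUN hGHL Γ K r0 k B hK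
  refine ⟨20, by norm_num, fun A hA => ?_⟩
  obtain ⟨he2, hz2, hz0⟩ := IJPD_adm 20 20 A le_rfl (by norm_num) hA
  obtain ⟨R0, hR0, hnum⟩ := IJPD_num C
  refine ⟨R0, hR0, ?_⟩
  intro R G Φ hR hG hΦ y y' hre
  obtain ⟨n1, n2, n3⟩ := hnum R hR
  have hR1 : 1 ≤ R := hR0.trans hR
  have hR' : 0 < R := by linarith
  obtain ⟨hr1, hr2, hr3⟩ := IJPD_r A R hR1 (by linarith)
  obtain ⟨h1, h2, h3⟩ := IJPD_rc1 G Φ r0 (A.r R) R C (hC R (A.r R) G Φ n3 hr2 hG hΦ) (A.n R) y y' hre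
  refine ⟨h1, h2, h3.trans ?_⟩
  have hlog : 0 ≤ Real.log R := Real.log_nonneg hR1
  have hn : (A.n R : ℝ) ≤ Real.log R := by
    unfold Par.n
    refine (Nat.floor_le (mul_nonneg hA.e2.le hlog)).trans ?_
    have : A.e2 ≤ 1 := by linarith [hA.e2]
    nlinarith
  have hp : 0 < R ^ (1 / 20 : ℝ) := Real.rpow_pos_of_pos hR' _
  have e1 : ((A.n R : ℝ) + 1) * (C * A.r R) ≤ R ^ (1 / 20 : ℝ) * (R ^ (1 / 20 : ℝ) * R ^ (-(9 / 20) : ℝ)) :=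
    mul_le_mul (by linarith) (mul_le_mul n1 hr1 hr3.le hp.le) (by positivity) hp.le
  refine e1.trans ?_
  rw [← Real.rpow_add hR', ← Real.rpow_add hR']
  exact Real.rpow_le_rpow_of_exponent_le hR1 (by norm_num)

theorem IJPD_proof (hGXH : GXH_stmt) (hDPP : DPP_stmt) (hGCF : GCF_stmt) (hGLF : GLF_stmt) (hGEQ : GEQ_stmt) (hDGR : DGR_stmt) (hGUN : GUN_stmt) (hGHL : GHL_stmt) : IJPD_stmt := by
  intro d Γ _ _ K r0 η k B _ hK _ hη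
  obtain ⟨C, hC1, hC⟩ := IJPD_dis hGXH hDPP hGCF hGLF hGEQ Γ K r0 k B η hK hη
  obtain ⟨Cg, hCg, hgr⟩ := hDGR d Γ K k B η hK hη
  obtain ⟨-, -, -, -, htri, -⟩ := hDPP d Γ K η hK hη
  refine ⟨20 * Cg, by linarith, fun A hA => ?_⟩
  obtain ⟨he2, -, -⟩ := IJPD_adm (20 * Cg) (20 * Cg) A le_rfl (by linarith) hA
  obtain ⟨-, hz2, hz0⟩ := IJPD_adm (20 * Cg) 20 A (by linarith) (by linarith) hA
  obtain ⟨R0, hR0, hnum⟩ := IJPD_num (Cg * C)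
  refine ⟨R0, hR0, ?_⟩
  intro R G Φ hR hG hΦ y y' hre
  obtain ⟨n1, n2, n3⟩ := hnum R hR
  have hR1 : 1 ≤ R := hR0.trans hR
  have hR' : 0 < R := by linarith
  obtain ⟨hr1, hr2, hr3⟩ := IJPD_r A R hR1 (by linarith)
  have hlog : 0 ≤ Real.log R := Real.log_nonneg hR1
  have hw := IJPD_win R n3
  have hnr : ∀ y : YS Γ d, y ∈ GW Γ G r0 2 R → nrm G (prY y) ≤ 3 / 2 := by
    intro y hy
    unfold prY
    rw [((hGHL d Γ G hG.met hK.smooth hG.isom).1 y.1 y.2).2.1]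
    exact IJPD_nrm hGXH G hG.met _ (hy.2.trans hw)
  have h3 := IJPD_rc2 η G Φ r0 (A.r R) R C Cg (by positivity) hCg hΦ.add htri
    (fun y y' t hy hy' => (hgr G Φ hG hΦ).1 _ _ t (by rw [((hGUN d G Φ hG.met hΦ).2.2.1 1 _).2]; exact hnr y hy) (hnr y' hy'))
    (hC R (A.r R) G Φ n3 hr2 hG hΦ) (A.n R) y y' hre
  have htu : A.tu R = (A.n R : ℝ) + 1 := rfl
  rw [htu]
  refine h3.trans ?_
  have hnf : (A.n R : ℝ) ≤ A.e2 * Real.log R := by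
    unfold Par.n
    exact Nat.floor_le (mul_nonneg hA.e2.le hlog)
  have he1 : A.e2 ≤ 1 := by
    have h1 : A.e2 ≤ 20 * Cg * A.e2 := le_mul_of_one_le_left hA.e2.le (by linarith)
    linarith
  have hn : (A.n R : ℝ) ≤ Real.log R := by nlinarith
  have hexp : Real.exp (Cg * A.n R) ≤ R ^ (1 / 20 : ℝ) := by
    rw [Real.rpow_def_of_pos hR']
    refine Real.exp_le_exp.2 ?_
    have h1 : Cg * A.n R ≤ Cg * (A.e2 * Real.log R) := mul_le_mul_of_nonneg_left hnf (by linarith)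
    have h2 : Cg * A.e2 ≤ 1 / 20 := by linarith
    have h4 : Cg * A.e2 * Real.log R ≤ 1 / 20 * Real.log R := mul_le_mul_of_nonneg_right h2 hlog
    linarith
  have hp : 0 < R ^ (1 / 20 : ℝ) := Real.rpow_pos_of_pos hR' _
  have e1 : ((A.n R : ℝ) + 1) * (Cg * Real.exp (Cg * A.n R) * (C * A.r R)) ≤ R ^ (1 / 20 : ℝ) * (R ^ (1 / 20 : ℝ) * (R ^ (1 / 20 : ℝ) * R ^ (-(9 / 20) : ℝ))) := by
    have e2 : Cg * Real.exp (Cg * A.n R) * (C * A.r R) = Real.exp (Cg * A.n R) * (Cg * C * A.r R) := by ring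
    rw [e2]
    have e3 : Cg * C * A.r R ≤ R ^ (1 / 20 : ℝ) * R ^ (-(9 / 20) : ℝ) := mul_le_mul n1 hr1 hr3.le hp.le
    have e4 : Real.exp (Cg * A.n R) * (Cg * C * A.r R) ≤ R ^ (1 / 20 : ℝ) * (R ^ (1 / 20 : ℝ) * R ^ (-(9 / 20) : ℝ)) := mul_le_mul hexp e3 (by positivity) hp.le
    exact mul_le_mul (by linarith) e4 (by positivity) hp.le
  refine e1.trans ?_
  rw [← Real.rpow_add hR', ← Real.rpow_add hR', ← Real.rpow_add hR']
  exact Real.rpow_le_rpow_of_exponent_le hR1 (by norm_num)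

end

end Pool.Agent.VD
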