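import Mathlib
import Pool.Agent.helper11.VQ.Spec3a

/-!
# Project VD (MP_07c750_an, quantum unique ergodicity for almost every metric, every compact negatively curved manifold, every dimension): DETECTION, ABSTRACT BLOCK U, rows `vd:X`

Everything here is abstract: `X` = positions, `S` = phase space (the universal cover), a group `Γ` acts on both, a flow on `S` (time = time of the flow), `ps : S → X` the foot point, `rv` the reversal `(x, ξ) ↦ (x, -ξ)`, `En` the energy minus the energy of the shell, `dX`, `dS` invariant distances.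
The goal is `UNDA_stmt`: the total volume of the chains which are not detected against a given chain. The instance for the geodesic flow is given by the blocks FL (structure `OKS`), RIG (the hypothesis `rig`) and A (`Chn`, `m`).

RULES. Row `vd:XXX`: file `Pool/Agent/<seat>/VD/XXX.lean`, `import Pool.Agent.helper99.VD.SpecU`, `set_option autoImplicit false`, namespace `Pool.Agent.VD`, auxiliary lemmas prefixed `XXX_`, theorem `XXX_proof (h..) : XXX_stmt` (rows listed in `from` may be used as hypotheses `(h : YYY_stmt)`). No `convert`, `congr!`, `native_decide`, no double quotes, no `private`.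
All rows are adaptations of rows of VN: PIVA of helper49/VN/PIVN.lean, CNVA of helper21/VN/CNVN.lean, RCLA of helper48/VN/RCLN.lean, CLSA of helper89/VN/CLSN.lean, UNDA of helper15/VN/UND.lean (simpler: real distances with a triangle inequality in the place of frames).
-/

open scoped ENNReal
open MeasureTheory Filter Set

namespace Pool.Agent.VD

noncomputable section

/-- a flow on a phase space `S` over the space `X` of positions; `th f t p` = the phase of the function `f` along the orbit of `p` during the time `t` (an integral) -/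
structure SY (X S : Type) where
  dX : X → X → ℝ
  dS : S → S → ℝ
  ps : S → X
  rv : S → S
  fl : ℝ → S → S
  En : S → ℝ
  th : (X → ℝ) → ℝ → S → ℝ

/-- the properties of the flow which are used; `C` large, `c0` small -/
structure OKS (Γ : Type) {X S : Type} [Group Γ] [MulAction Γ X] [MulAction Γ S] (C c0 : ℝ) (Y : SY X S) : Prop where
  dX0 : ∀ x, Y.dX x x = 0
  dXs : ∀ x y, Y.dX x y = Y.dX y x
  dXt : ∀ x y z, Y.dX x z ≤ Y.dX x y + Y.dX y z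
  dXi : ∀ (γ : Γ) (x y : X), Y.dX (γ • x) (γ • y) = Y.dX x y
  dS0 : ∀ p, Y.dS p p = 0
  dSs : ∀ p q, Y.dS p q = Y.dS q p
  dSt : ∀ p q z, Y.dS p z ≤ Y.dS p q + Y.dS q z
  dSi : ∀ (γ : Γ) (p q : S), Y.dS (γ • p) (γ • q) = Y.dS p q
  inj : ∀ (γ : Γ) (x : X), Y.dX (γ • x) x ≤ c0 → γ = 1
  psg : ∀ (γ : Γ) (p : S), Y.ps (γ • p) = γ • Y.ps p
  psd : ∀ p q, Y.dX (Y.ps p) (Y.ps q) ≤ C * Y.dS p q
  psr : ∀ p, Y.ps (Y.rv p) = Y.ps p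
  rvr : ∀ p, Y.rv (Y.rv p) = p
  rvg : ∀ (γ : Γ) (p : S), Y.rv (γ • p) = γ • Y.rv p
  rvd : ∀ p q, Y.dS (Y.rv p) (Y.rv q) ≤ C * Y.dS p q
  Eng : ∀ (γ : Γ) (p : S), Y.En (γ • p) = Y.En p
  Enr : ∀ p, Y.En (Y.rv p) = Y.En p
  Enf : ∀ (t : ℝ) (p : S), |Y.En p| ≤ c0 → Y.En (Y.fl t p) = Y.En p
  fl0 : ∀ p, |Y.En p| ≤ c0 → Y.fl 0 p = p
  fla : ∀ (s t : ℝ) (p : S), |Y.En p| ≤ c0 → Y.fl (s + t) p = Y.fl s (Y.fl t p)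
  flg : ∀ (γ : Γ) (t : ℝ) (p : S), |Y.En p| ≤ c0 → Y.fl t (γ • p) = γ • Y.fl t p
  flr : ∀ (t : ℝ) (p : S), |Y.En p| ≤ c0 → Y.fl t (Y.rv p) = Y.rv (Y.fl (-t) p)
  /-- growth of distances -/
  gro : ∀ (p q : S) (t η : ℝ), |Y.En p| ≤ c0 → |Y.En q| ≤ c0 → 0 < η → Y.dS p q ≤ η → C * Real.exp (C * |t|) * η ≤ c0 → Y.dS (Y.fl t p) (Y.fl t q) ≤ C * Real.exp (C * |t|) * η
  /-- short times -/
  sho : ∀ (p : S) (u : ℝ), |Y.En p| ≤ c0 → |u| ≤ 1 → Y.dS p (Y.fl u p) ≤ C * |u|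
  /-- geodesics move -/
  sep : ∀ (p : S) (u : ℝ), |Y.En p| ≤ c0 → |u| ≤ c0 → |u| ≤ C * Y.dX (Y.ps p) (Y.ps (Y.fl u p))
  /-- two geodesics which are close at two times have close directions, up to the sign -/
  two : ∀ (p q : S) (u u' δ e : ℝ), |Y.En p| ≤ e → |Y.En q| ≤ e → e ≤ c0 → 0 < u → u ≤ c0 → |u'| ≤ c0 → 0 ≤ δ → C * δ ≤ u → Y.dX (Y.ps p) (Y.ps q) ≤ δ → Y.dX (Y.ps (Y.fl u p)) (Y.ps (Y.fl u' q)) ≤ δ →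
    Y.dS p q ≤ C * (δ / u + u + e) ∨ Y.dS p (Y.rv q) ≤ C * (δ / u + u + e)
  /-- phases of nonnegative functions -/
  thn : ∀ (f : X → ℝ) (t : ℝ) (p : S), |Y.En p| ≤ c0 → 0 ≤ t → (∀ x, 0 ≤ f x) → (Continuous fun s => f (Y.ps (Y.fl s p))) → 0 ≤ Y.th f t p
  th1 : ∀ (f : X → ℝ) (t a l : ℝ) (p : S), |Y.En p| ≤ c0 → 0 ≤ a → 0 ≤ l → a + l ≤ t → (∀ x, 0 ≤ f x) → (Continuous fun s => f (Y.ps (Y.fl s p))) → (∀ s, a ≤ s → s ≤ a + l → 1 ≤ f (Y.ps (Y.fl s p))) → l ≤ C * Y.th f t p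
  th2 : ∀ (f : X → ℝ) (t : ℝ) (p : S), |Y.En p| ≤ c0 → 0 ≤ t → Y.th f t p ≠ 0 → ∃ s, 0 ≤ s ∧ s < t ∧ f (Y.ps (Y.fl s p)) ≠ 0

/-- a net of bump functions of radius `ρ` -/
structure NetA (Γ : Type) {X S : Type} [Group Γ] [MulAction Γ X] [MulAction Γ S] (C c0 ρ : ℝ) (Y : SY X S) {J : ℕ} (χ : Fin J → X → ℝ) : Prop where
  bd : ∀ j x, 0 ≤ χ j x
  cont : ∀ j p, |Y.En p| ≤ c0 → Continuous fun s => χ j (Y.ps (Y.fl s p))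
  cov : ∀ x, ∃ j, ∀ x', Y.dX x x' ≤ ρ / C → 1 ≤ χ j x'
  sup : ∀ j x x', χ j x ≠ 0 → χ j x' ≠ 0 → ∃ γ : Γ, Y.dX x (γ • x') ≤ C * ρ

variable {X S : Type} (Y : SY X S)

/-- the point of the chain `w` (vertices at the times `0, t, 2 t, ..`) at the time `s` -/
def frA (t : ℝ) (w : ℕ → S) (s : ℝ) : S := Y.fl (s - ⌊s / t⌋₊ * t) (w ⌊s / t⌋₊)

/-- the phase of `f` along the chain -/
def thA (f : X → ℝ) (K t : ℝ) (N : ℕ) (w : ℕ → S) : ℝ := ∑ j ∈ Finset.range N, K * Y.th f t (w j)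

/-- the two chains are not detected by `nc` of the bumps -/
def UndA {J : ℕ} (χ : Fin J → X → ℝ) (K t : ℝ) (N nc : ℕ) (w w' : ℕ → S) : Prop := {a : Fin J | 1 ≤ |thA Y (χ a) K t N w - thA Y (χ a) K t N w'|}.ncard < nc

/-- chains with small jumps and small energies -/
def JPA (t r : ℝ) (N : ℕ) (w : ℕ → S) : Prop := ∀ j < N, Y.dS (Y.fl t (w j)) (w (j + 1)) ≤ r ∧ |Y.En (w j)| ≤ r ∧ |Y.En (w (j + 1))| ≤ r

/-- the reversal or the identity -/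
def rvb (b : Bool) (p : S) : S := if b then Y.rv p else p

/-- the state `a = (γ, n, b)` of the chain `w'` at the time `i Λ` relative to the chain `w` -/
def SttA {Γ : Type} [Group Γ] [MulAction Γ S] (t ε e1 Λ : ℝ) (N : ℕ) (w w' : ℕ → S) (i : ℕ) (a : Γ × ℕ × Bool) : Prop :=
  ∃ s : ℝ, 0 ≤ s ∧ s < N * t ∧ a.2.1 = ⌊s / e1⌋₊ ∧ Y.dS (frA Y t w' (i * Λ)) (rvb Y a.2.2 (a.1 • frA Y t w s)) ≤ ε

/-- **Row PIGA** (pigeonhole; short-medium; pure). `f : ℕ → Fin q` (the cells) on a finite set `A` of more than `q (L + 1)` indices: one cell contains more than `L + 1` of them (`Finset.exists_lt_card_fiberwise_of_mul_lt_card_of_maps_to`), so its maximum and minimum differ by at least `L + 1`. -/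
def PIGA_stmt : Prop := ∀ (q L : ℕ) (A : Finset ℕ) (β : Type) [DecidableEq β] (B : Finset β) (f : ℕ → β), B.card ≤ q → (∀ i ∈ A, f i ∈ B) → q * (L + 1) < A.card → ∃ i ∈ A, ∃ j ∈ A, f i = f j ∧ i + L + 1 ≤ j

/-- **Row PIVA** (detection; medium-long; ADAPTATION of helper49/VN/PIVN.lean; from PIGA). `fr = frA Y t w`, `fr' = frA Y t w'`. In every interval `[i t, (i+1) t)`, `i < N`, they are orbits: `fr (s + v) = fl v (fr s)` (`fla`; `⌊s/t⌋₊ = i`; all energies are those of the vertices, `≤ e ≤ ρ1 ≤ ρ10 ≤ c0`).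
Put `b = 2 C^2 + 1` (so `b > C^2`). `s' ∈ [i t, (i+1) t)`, `a = max (i t) (s' - ρ1)`: `s' ∈ [a, a + ρ1] ⊂ [i t, (i+1) t)` (`ρ1 < 1 ≤ t`; if `a = s' - ρ1` then `a + ρ1 = s'`). `s'_j = a + b ρ j`, `j < m`, `m = ⌊ρ1/(b ρ)⌋`, so `s'_j + b ρ ≤ a + ρ1`. `x_j = ps (fr' s'_j)`; `NetA.cov` for `x_j`: `a_j` with `χ (a_j) ≥ 1` on `{dX x_j . ≤ ρ/C}`.
(1) `a_j ≠ a_l` for `j < l`: otherwise by `sup` there is `γ` with `dX x_j (γ x_l) ≤ C ρ` (`χ (a_j) x_j ≥ 1` as `dX x_j x_j = 0`), `dX x_j x_l ≤ C · C ρ1` (`psd`, `sho`), so `dX (γ x_l) x_l ≤ C ρ + C² ρ1 ≤ c0`, `γ = 1` and `dX x_j x_l ≤ C ρ`, by `sep` `b ρ ≤ s'_l - s'_j ≤ C² ρ`, a contradiction.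
(2) for `s ∈ [s'_j, s'_j + ρ/C³]` (inside the step `i`, `ρ/C³ ≤ b ρ`): `dX x_j (ps (fr' s)) ≤ C · C (s - s'_j) ≤ ρ/C` so `χ (a_j) ≥ 1` there: by `th1` (`a = s'_j - i t`, `l = ρ/C³`) `th (χ (a_j)) t (w' i) ≥ ρ/C⁴`, all terms are `≥ 0` (`thn`, `NetA.cont`), so `|thA (χ (a_j)) K t N w'| ≥ |K| ρ/C⁴ ≥ 3` if `C1 ≥ 3 C⁴`.
(3) By `UndA` and (1) for all but less than `nc` of the `j < m`: `thA (χ (a_j)) K t N w ≠ 0`, so `th (χ (a_j)) t (w i') ≠ 0` for some `i' < N` and by `th2` there is `s_j ∈ [i' t, (i'+1) t)`, `s_j < N t`, with `χ (a_j) (ps (fr s_j)) ≠ 0`; `sup`: `γ_j` with `dX x_j (γ_j ps (fr s_j)) ≤ C ρ`.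
(4) cell of `s_j`: `(⌊s_j/t⌋, ⌊(s_j - ⌊s_j/t⌋ t)/ρ10⌋)`, in a set of at most `q = N (⌊t/ρ10⌋ + 1) ≤ N t (1/ρ10 + 1)` elements. PIGA with `L = ⌈1/ρ1⌉` (`q (L + 1) ≤ N t (1/ρ10 + 1) (1/ρ1 + 2) < ρ1/(b ρ) - 1 - nc` by the hypothesis if `C1` is large: `C1 ≥ b`, `C1 ≥ 3 (1/ρ10 + 1) + 2`): `j < l` with the same cell and `l - j ≥ 1/ρ1`.
(5) `u = s'_l - s'_j = b ρ (l - j) ∈ [b ρ/ρ1, ρ1]`, `u' = s_l - s_j`, `|u'| ≤ ρ10`, `fr s_l = fl u' (fr s_j)`. `γ_j = γ_l`: `dX x_j x_l ≤ C² ρ1`, `dX (ps (fr s_j)) (ps (fr s_l)) ≤ C² ρ10`, so `dX (γ_j z) (γ_l z) ≤ 2 C ρ + C² ρ1 + C² ρ10 ≤ c0` for `z = ps (fr s_l)` (`dXi`, `inj`; `ρ ≤ ρ1` by the hypothesis on `nc`; `ρ10` small).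
(6) `two` with `p = fr' s'_j`, `q = γ fr s_j`, `δ = C ρ` (`C δ ≤ u` as `C² ρ ≤ b ρ ≤ b ρ/ρ1`): `dS p q` or `dS p (rv q)` is `≤ C (C ρ1/b + ρ1 + e) ≤ 3 C² ρ1`. (7) `dS (fr' s') (fr' s'_j) ≤ C ρ1` (`sho`, in the same step, `|s' - s'_j| ≤ ρ1`). -/
def PIVA_stmt : Prop := ∀ C c0 : ℝ, 1 ≤ C → 0 < c0 → c0 ≤ 1 → ∃ C1 ρ10 : ℝ, 1 ≤ C1 ∧ 0 < ρ10 ∧ ρ10 ≤ c0 ∧ ∀ (Γ X S : Type) [Group Γ] [MulAction Γ X] [MulAction Γ S] (Y : SY X S) (ρ ρ1 e K t : ℝ) (J N nc : ℕ) (χ : Fin J → X → ℝ) (w w' : ℕ → S),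
  OKS Γ C c0 Y → NetA Γ C c0 ρ Y χ → 0 < ρ → 0 < ρ1 → ρ1 ≤ ρ10 → 1 ≤ t → e ≤ ρ1 → C1 / ρ ≤ |K| → nc + C1 * (N * t + 1) / ρ1 ≤ ρ1 / (C1 * ρ) → (∀ j < N, |Y.En (w j)| ≤ e ∧ |Y.En (w' j)| ≤ e) → UndA Y χ K t N nc w w' →
    ∀ s' : ℝ, 0 ≤ s' → s' < N * t → ∃ (s : ℝ) (γ : Γ) (b : Bool), 0 ≤ s ∧ s < N * t ∧ Y.dS (frA Y t w' s') (rvb Y b (γ • frA Y t w s)) ≤ C1 * ρ1

/-- **Row CNVA** (staying close; short-medium; compare helper21/VN/CNVN.lean). `C1 = C`. (1) is `gro` with `η = C2 ρ1`, `e^(C|s|) ≤ ρ1^(-1/2)`; `C3 = C C2 + ..`, `ρ10` so small that `C3 ρ10^(1/2) ≤ c0`. (2) `w` is a chain: `fr (s + v)` and `fl v (fr s)` are equal if there is no vertex in `(s, s + v]` (`fla`);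
otherwise there is exactly one (`v ≤ t`), or `s + v = (j + 1) t` is itself a vertex: `fr (s + v) = fl v2 (w (j+1))`, `fl v (fr s) = fl v2 (fl t (w j))` with `v2 = s + v - (j+1) t ∈ [0, v]` (if `v = t` and `s` is a multiple of `t`, then `v2 = 0`; `⌊N t/t⌋₊ = N`), so `gro` with `η = r`: `dS ≤ C e^(C v) r`. If `x = 0`: `fl 0 = id`, `rvd`, so `≤ C² e^(C v) ρ1 ≤ C3 ρ1^(1/2)`.
If `v ≤ 1`: `gro` again for the time `x` (after `rvb`): `≤ C e^(C |x|) C (C e^C ρ1) ≤ C3 ρ1^(1/2)`. (The energies of all the points are `≤ r ≤ ρ1 ≤ c0`: `Enf`, `Eng`, `Enr`.) -/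
def CNVA_stmt : Prop := ∀ C c0 : ℝ, 1 ≤ C → 0 < c0 → c0 ≤ 1 → ∃ C1 : ℝ, 1 ≤ C1 ∧ ∀ C2 : ℝ, 1 ≤ C2 → ∃ C3 ρ10 : ℝ, 1 ≤ C3 ∧ 0 < ρ10 ∧ ρ10 ≤ 1 / 8 ∧ ρ10 ≤ c0 ∧ ∀ (Γ X S : Type) [Group Γ] [MulAction Γ X] [MulAction Γ S] (Y : SY X S) (ρ1 : ℝ),
  OKS Γ C c0 Y → 0 < ρ1 → ρ1 ≤ ρ10 → (∀ (p q : S) (s : ℝ), |Y.En p| ≤ c0 → |Y.En q| ≤ c0 → Real.exp (C1 * |s|) ≤ ρ1 ^ (-(1 / 2) : ℝ) → Y.dS p q ≤ C2 * ρ1 → Y.dS (Y.fl s p) (Y.fl s q) ≤ C3 * ρ1 ^ (1 / 2 : ℝ)) ∧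
    ∀ (t r : ℝ) (N : ℕ) (w : ℕ → S), 1 ≤ t → 0 < r → r ≤ ρ1 → 1 ≤ N → JPA Y t r N w → ∀ (s v x : ℝ) (b : Bool), 0 ≤ s → 0 ≤ v → v ≤ t → s + v ≤ N * t → Real.exp (C1 * v) ≤ ρ1 ^ (-(1 / 2) : ℝ) → Real.exp (C1 * |x|) ≤ ρ1 ^ (-(1 / 2) : ℝ) → x = 0 ∨ v ≤ 1 →
      Y.dS (Y.fl x (rvb Y b (frA Y t w (s + v)))) (Y.fl x (rvb Y b (Y.fl v (frA Y t w s)))) ≤ C3 * ρ1 ^ (1 / 2 : ℝ)

/-- **Row RCLA** (two chains with the same state stay close, and close chains have the same `γ`; short-medium; from CNVA; compare helper48/VN/RCLN.lean). `s'`, `s''` = the times of the two states, `⌊s'/e1⌋ = ⌊s''/e1⌋`, so `|s' - s''| < e1`; first `s' ≤ s''`, `u = s'' - s' < e1 ≤ 1` (the other case by symmetry).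
(1) `fr'(iΛ + v)`, `fl v (fr'(iΛ))` (CNVA (2), `x = 0`), `fl v (rvb b (γ fr(s')))` (CNVA (1)), `fl v (rvb b (γ fl u (fr s')))`, `fl v (rvb b (γ fr(s'')))` (CNVA (2) for `w`, `x = v`, `u ≤ 1`, after moving `γ` through `fl`, `rvb`, `dSi`), `fl v (fr''(iΛ))` (CNVA (1)), `fr''(iΛ + v)`. The second and the third step: `fl v (rvb b (γ fl u z)) = fl (±u) (fl v (rvb b (γ z)))` (`flg`, `flr`, `fla`), `sho`: `≤ C e1`.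
Total `≤ 5 C3 ρ1^(1/2) + C e1 ≤ eps`. (2) `ps` of the states: `dX (ps (fr'(iΛ))) (γ' ps (fr s')) ≤ C C2 ρ1` and the same for `''`, `dX (ps (fr s')) (ps (fr s'')) ≤ C (C e1 + C3 ρ1^(1/2))`, so `dX (γ' z) (γ'' z) ≤ C eps + ..  ≤ c0` for `z = ps (fr s'')`: `γ' = γ''` (`inj`, `dXi`). Here `C1 eps ≤ c0` with `C1 = 4 C + C1(CNVA)`. -/
def RCLA_stmt : Prop := ∀ C c0 : ℝ, 1 ≤ C → 0 < c0 → c0 ≤ 1 → ∃ C1 : ℝ, 1 ≤ C1 ∧ ∀ eps : ℝ, 0 < eps → C1 * eps ≤ c0 → ∃ e10 : ℝ, 0 < e10 ∧ e10 ≤ 1 ∧ ∀ C2 : ℝ, 1 ≤ C2 → ∃ ρ10 : ℝ, 0 < ρ10 ∧ ρ10 ≤ 1 / 8 ∧ ρ10 ≤ c0 ∧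
  ∀ (Γ X S : Type) [Group Γ] [MulAction Γ X] [MulAction Γ S] (Y : SY X S) (ρ1 t r e1 Λ : ℝ) (N : ℕ) (w w' w'' : ℕ → S), OKS Γ C c0 Y → 1 ≤ N → 0 < r → r ≤ ρ1 → ρ1 ≤ ρ10 → 1 ≤ t → 0 < e1 → e1 ≤ e10 → 0 < Λ → Λ ≤ t → Real.exp (C1 * Λ) ≤ ρ1 ^ (-(1 / 2) : ℝ) →
    JPA Y t r N w → JPA Y t r N w' → JPA Y t r N w'' → ∀ (i : ℕ),
      (∀ (v : ℝ) (a : Γ × ℕ × Bool), 0 ≤ v → v ≤ Λ → i * Λ + v ≤ N * t → SttA Y t (C2 * ρ1) e1 Λ N w w' i a → SttA Y t (C2 * ρ1) e1 Λ N w w'' i a → Y.dS (frA Y t w' (i * Λ + v)) (frA Y t w'' (i * Λ + v)) ≤ eps) ∧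
      ∀ (γ' γ'' : Γ) (n : ℕ) (b : Bool), i * Λ ≤ N * t → SttA Y t (C2 * ρ1) e1 Λ N w w' i (γ', n, b) → SttA Y t (C2 * ρ1) e1 Λ N w w'' i (γ'', n, b) → Y.dS (frA Y t w' (i * Λ)) (frA Y t w'' (i * Λ)) ≤ eps → γ' = γ''

/-- **Row CLSA** (the classes of undetected chains; medium; from PIVA, RCLA; compare helper89/VN/CLSN.lean, now simpler). `eps` may be decreased so that `C1(RCLA) eps ≤ c0` and `C eps ≤ c0`. `C2 = C1(PIVA)`, `e1 = e10`, `Λ = log (1/ρ1)/(2 C1(RCLA))`, so `e^(C1 Λ) = ρ1^(-1/2)`, `Λ ≤ t`; `T = N t`, `S = ⌈T/Λ⌉₊`, `i Λ < T` for `i < S`.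
For `w'` in the set PIVA at the times `i Λ`, `i < S`, gives states `st w' i = (γ_i, n_i, b_i)` (choice), `n_i < n0 = ⌊T/e1⌋₊ + 1`. `cl w'` = the number of the function `i ↦ (n_i, b_i)`, `Fin S → Fin n0 × Bool`, in an enumeration (`Fintype.equivFin`); `M = (2 n0)^S`. If `w'`, `w''` are in the same class, then by induction on `i < S`: `dS (fr'(iΛ)) (fr''(iΛ)) ≤ eps` (`i = 0`: `fl 0 = id`, `w' 0 = w'' 0 = x`;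
`i + 1`: RCLA (1) at `i` with `v = Λ`) and `γ'_i = γ''_i` (RCLA (2)). So RCLA (1) gives the closeness at all times `s ≤ T` (`i = min ⌊s/Λ⌋₊ (S - 1)`, `v = s - i Λ ≤ Λ`), also at `s = T`: `fr'(T) = w' N = γ' y`, `fr''(T) = γ'' y`, `dX (γ' ps y) (γ'' ps y) ≤ C eps ≤ c0`: `γ' = γ''`.
`M ≤ (C' (T + 1))^(C' T/log (1/ρ1) + 3)` as in CLSN (`S ≤ T/Λ + 1`, `2 n0 ≤ (2/e1 + 2)(T + 1)`). -/
def CLSA_stmt : Prop := ∀ C c0 : ℝ, 1 ≤ C → 0 < c0 → c0 ≤ 1 → ∀ eps : ℝ, 0 < eps → ∃ C' ρ10 : ℝ, 1 ≤ C' ∧ 0 < ρ10 ∧ ρ10 ≤ 1 / 8 ∧ ρ10 ≤ c0 ∧ ∀ (Γ X S : Type) [Group Γ] [MulAction Γ X] [MulAction Γ S] (Y : SY X S) (ρ ρ1 r K t : ℝ) (J N nc : ℕ) (χ : Fin J → X → ℝ) (x y : S) (w : ℕ → S),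
  OKS Γ C c0 Y → NetA Γ C c0 ρ Y χ → 1 ≤ N → 0 < ρ → 0 < r → r ≤ ρ1 → ρ1 ≤ ρ10 → 1 ≤ t → Real.log (1 / ρ1) ≤ t → C' / ρ ≤ |K| → nc + C' * (N * t + 1) / ρ1 ≤ ρ1 / (C' * ρ) → JPA Y t r N w →
    ∃ (M : ℕ) (cl : (ℕ → S) → ℕ), (M : ℝ) ≤ (C' * (N * t + 1)) ^ (C' * N * t / Real.log (1 / ρ1) + 3) ∧
      ∀ w' : ℕ → S, w' 0 = x → (∃ γ : Γ, w' N = γ • y) → JPA Y t r N w' → UndA Y χ K t N nc w w' → cl w' < M ∧
        ∀ w'' : ℕ → S, w'' 0 = x → (∃ γ : Γ, w'' N = γ • y) → JPA Y t r N w'' → UndA Y χ K t N nc w w'' → cl w'' = cl w' →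
          w'' N = w' N ∧ ∀ s : ℝ, 0 ≤ s → s < N * t → Y.dS (frA Y t w' s) (frA Y t w'' s) ≤ eps

/-- **Row UNDA** (the total volume of the undetected chains; medium; from CLSA; compare helper15/VN/UND.lean). `Z` = the index set of the packets, `π : Z → S` its projection. CLSA for `π ∘ w` gives `M`, `cl`. `VN.SUMN` (helper34/VN/SUMN.lean, import it; pure) with `ι = Γ`, `A γ` = the set of the statement, `cl γ v = cl (π ∘ vz x (γ • z) v)`: equal classes have `γ • π z = γ' • π z`, so `γ = γ'`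
(`inj`, `psg`). The volume of one class: empty, or it contains `v₀`; then by `rig` every other `v` of the class satisfies `dS (π (vz x (γ • z) v₀ (i + 1))) (π (v i)) ≤ r'` for all `i : Fin (N - 1)`, so its measure is `≤ V^(N - 1)` (`Measure.pi_pi`; `vol`). -/
def UNDA_stmt : Prop := ∀ C c0 : ℝ, 1 ≤ C → 0 < c0 → c0 ≤ 1 → ∀ eps : ℝ, 0 < eps → ∃ C' ρ10 : ℝ, 1 ≤ C' ∧ 0 < ρ10 ∧ ρ10 ≤ 1 / 8 ∧ ρ10 ≤ c0 ∧ ∀ (Γ X S Z : Type) [Group Γ] [MulAction Γ X] [MulAction Γ S] [MulAction Γ Z] [MeasurableSpace Z] (m : Measure Z) [SigmaFinite m] (Y : SY X S) (π : Z → S)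
  (ρ ρ1 r K t r' : ℝ) (V : ENNReal) (J N nc : ℕ) (χ : Fin J → X → ℝ) (Chn : (ℕ → Z) → Prop),
  OKS Γ C c0 Y → NetA Γ C c0 ρ Y χ → 1 ≤ N → 0 < ρ → 0 < r → r ≤ ρ1 → ρ1 ≤ ρ10 → 1 ≤ t → Real.log (1 / ρ1) ≤ t → C' / ρ ≤ |K| → nc + C' * (N * t + 1) / ρ1 ≤ ρ1 / (C' * ρ) → (∀ (γ : Γ) (z : Z), π (γ • z) = γ • π z) →
  (∀ w, Chn w → JPA Y t r N (π ∘ w)) →
  (∀ w w' : ℕ → Z, Chn w → Chn w' → w' 0 = w 0 → w' N = w N → (∀ s : ℝ, 0 ≤ s → s < N * t → Y.dS (frA Y t (π ∘ w) s) (frA Y t (π ∘ w') s) ≤ eps) → ∀ j ≤ N, Y.dS (π (w j)) (π (w' j)) ≤ r') →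
  (∀ z : Z, m {z' | Y.dS (π z) (π z') ≤ r'} ≤ V) →
    ∀ (x z : Z) (w : ℕ → Z), w 0 = x → Chn w →
      ∑' γ : Γ, VQ.mZ m (N - 1) {v | Chn (VQ.vz x (γ • z) v) ∧ UndA Y χ K t N nc (π ∘ w) (π ∘ VQ.vz x (γ • z) v)} ≤ ENNReal.ofReal ((C' * (N * t + 1)) ^ (C' * N * t / Real.log (1 / ρ1) + 3)) * V ^ (N - 1)

end

end Pool.Agent.VD
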