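import Pool.Agent.helper80.VD.SpecD
import Pool.Agent.helper74.VD.Defs
import Pool.Agent.helper11.VD.SpecR
import Pool.Agent.helper99.VD.SpecU

/-!
# Project VD (MP_07c750_an, quantum unique ergodicity in every dimension), block U, part 2: THE INSTANCE OF THE DETECTION THEOREM for the geodesic flow, rows `vd:X`

The abstract theorem `UNDA` (helper99/VD/SpecU.lean) is proved (helper99/VD/AllU.lean: `UNDA_all`). Here: the structures `OKS`, `NetA` for the geodesic flow of a metric of the class `Cls Γ K k B`, and the volume of small balls of the index set.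

RULES. Row `vd:XXX`: file `Pool/Agent/<seat>/VD/XXX.lean`, `import Pool.Agent.helper99.VD.SpecV`, `set_option autoImplicit false`, namespace `Pool.Agent.VD`, auxiliary lemmas prefixed `XXX_`, theorem `XXX_proof (h..) : XXX_stmt` (rows listed in `from` may be used as hypotheses `(h : YYY_stmt)`).
No `convert`, `congr!`, `native_decide`, no double quotes, no `private`, no command starting with a sharp sign.
-/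

set_option autoImplicit false

open scoped ContDiff Topology InnerProductSpace ENNReal
open MeasureTheory Filter Set

namespace Pool.Agent.VD

noncomputable section

variable {d : ℕ}

/-- phase space; `Γ` acts on it by the lifts (the action is a hypothesis of the rows: `∀ γ p, γ • p = lft γ p`) -/
def PhS (_Γ : Type) (d : ℕ) : Type := P d

/-- the geodesic flow as an abstract flow of block U; `χ` = the cut-off of the distances -/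
def SYD (Γ : Type) [Group Γ] [MulAction Γ (V d)] (χ : V d → ℝ) (G : V d → V d →L[ℝ] V d) (Φ : ℝ → P d → P d) : SY (V d) (PhS Γ d) where
  dX := dV Γ χ
  dS := dP Γ χ
  ps := fun p : P d => p.1
  rv := fun p : P d => rev p
  fl := Φ
  En := Ep G
  th := fun f t (p : P d) => 1 / 2 * ∫ s in (0 : ℝ)..t, f (Φ s p).1

/-- **Row ITA** (integrals; short; PURE). (3): if `g = 0` on `[0, t)` then the integral over `(0, t]` vanishes (`t` is a null set: `intervalIntegral.integral_congr_ae` or `integral_eq_zero`). (2): `∫_0^t g ≥ ∫_a^(a+l) g ≥ l` (`intervalIntegral.integral_mono_interval`, `integral_mono_on`). -/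
def ITA_stmt : Prop := (∀ (g : ℝ → ℝ) (t : ℝ), 0 ≤ t → (∀ s, 0 ≤ g s) → 0 ≤ ∫ s in (0 : ℝ)..t, g s) ∧
  (∀ (g : ℝ → ℝ) (t a l : ℝ), 0 ≤ a → 0 ≤ l → a + l ≤ t → Continuous g → (∀ s, 0 ≤ g s) → (∀ s, a ≤ s → s ≤ a + l → 1 ≤ g s) → l ≤ ∫ s in (0 : ℝ)..t, g s) ∧
  ∀ (g : ℝ → ℝ) (t : ℝ), 0 ≤ t → (∫ s in (0 : ℝ)..t, g s) ≠ 0 → ∃ s, 0 ≤ s ∧ s < t ∧ g s ≠ 0

/-- **Row UTA** (Taylor in time; short-medium; from GDB, GUN, GXH). `c s = Φ s p`, `c' = XH G (c s)` (`IsFlow.deriv`), `‖XH G (c s)‖ ≤ C` and `‖fderiv (XH G) (c s)‖ ≤ C` for `|s| ≤ 1` (GDB with `T = 1`, `n = 1`), so `s ↦ XH G (c s)` is Lipschitz with the constant `C²` on `[-1, 1]` and `‖c u - c 0 - u • XH G p‖ ≤ C² u²` (mean value inequality for `c s - s • XH G p`). First components: `(XH G p).1 = vel G p`. -/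
def UTA_stmt : Prop := ∀ (d : ℕ) (Γ : Type) [Group Γ] [MulAction Γ (V d)] (K : Set (V d)) (k : ℝ) (B : ℕ → ℕ → ℝ), FdK Γ K → ∀ m : ℕ, ∃ C : ℝ, 1 ≤ C ∧ ∀ (G : V d → V d →L[ℝ] V d) (Φ : ℝ → P d → P d), Cls Γ K k B G → IsFlow G Φ →
  ∀ (p : P d) (u : ℝ), ‖p.1‖ ≤ m → nrm G p ≤ 3 / 2 → |u| ≤ 1 → ‖(Φ u p).1 - p.1 - u • vel G p‖ ≤ C * u ^ 2 ∧ ‖(Φ u p).1 - p.1‖ ≤ C * |u|

/-- **Row UVL** (velocities and energies; short-medium; from GIN, GXH, GNR, UTA (for the last part only the bounds of `Cls.bd`)). `m` with `K` in the ball of radius `m`. (1) `nrm G p ^ 2 = 2 Ham G p = 1 + 2 Ep G p`. (2) `⟪G p.1 (vel G p), vel G p⟫ = ⟪p.2, IG G p.1 p.2⟫ = nrm ^ 2` (GIN), `≤ C ‖vel‖²` (GNR), so `‖vel‖² ≥ (3/4)/C`; `‖vel‖ ≤ C nrm`. (3) `p.2 = G p.1 (vel G p)`.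
(4) `‖G x - G y‖ ≤ C ‖x - y‖` on the ball (`Cls.bd`, `n = 1`, convex), `‖G x‖ ≤ C`, `‖u‖² ≤ C ⟪G x u, u⟫` (`Cls.lo`). -/
def UVL_stmt : Prop := ∀ (d : ℕ) (Γ : Type) [Group Γ] [MulAction Γ (V d)] (K : Set (V d)) (k : ℝ) (B : ℕ → ℕ → ℝ), FdK Γ K → ∀ m : ℕ, ∃ C : ℝ, 1 ≤ C ∧ ∀ G : V d → V d →L[ℝ] V d, Cls Γ K k B G →
  (∀ p : P d, nrm G p ^ 2 = 1 + 2 * Ep G p ∧ ⟪G p.1 (vel G p), vel G p⟫_ℝ = 1 + 2 * Ep G p ∧ G p.1 (vel G p) = p.2 ∧ (|Ep G p| ≤ 1 / 8 → nrm G p ≤ 3 / 2) ∧ Ep G (rev p) = Ep G p ∧ vel G (rev p) = -vel G p) ∧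
  (∀ p : P d, ‖p.1‖ ≤ m → |Ep G p| ≤ 1 / 8 → 1 / C ≤ ‖vel G p‖ ∧ ‖vel G p‖ ≤ C ∧ ‖p.2‖ ≤ C) ∧
  ∀ x y : V d, ‖x‖ ≤ m → ‖y‖ ≤ m → ‖G x - G y‖ ≤ C * ‖x - y‖ ∧ ‖G x‖ ≤ C ∧ ∀ u, ‖u‖ ^ 2 ≤ C * ⟪G x u, u⟫_ℝ

/-- **Row UNK** (the distance near `K`; short; from DVV, GLF). For `x, y ∈ cthickening 1 K`: the term `γ = 1` of `dV` is `‖(x, 3) - (y, 3)‖ = ‖x - y‖` (`Ctf.one`, `one_smul`; `le_ciSup` with the boundedness from DVV). Second part: `x ∈ K`, `dV x y ≤ c0`: `‖x - y‖ ≤ C dV x y ≤ 1` (DVV). Third part: `FdK.cover` and the invariances. -/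
def UNK_stmt : Prop := ∀ (d : ℕ) (Γ : Type) [Group Γ] [MulAction Γ (V d)] (K : Set (V d)) (χ : V d → ℝ), FdK Γ K → Ctf K χ → (∀ x y : V d, x ∈ Metric.cthickening 1 K → y ∈ Metric.cthickening 1 K → ‖x - y‖ ≤ dV Γ χ x y) ∧
  ∃ (C c0 : ℝ) (m : ℕ), 1 ≤ C ∧ 0 < c0 ∧ c0 ≤ 1 / 8 ∧ (∀ x ∈ Metric.cthickening 1 K, ‖x‖ ≤ m) ∧ (∀ x y : V d, x ∈ K → dV Γ χ x y ≤ c0 → ‖x - y‖ ≤ C * dV Γ χ x y ∧ C * dV Γ χ x y ≤ 1) ∧
    ∀ x y : V d, ‖x‖ ≤ m → ‖y‖ ≤ m → dV Γ χ x y ≤ C * ‖x - y‖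

/-- **Row USP** (geodesics move; short-medium; from UTA, UVL, UNK, DVV, GEQ, GHL). By invariance (`dV (γ x) (γ y) = dV x y`, `(lft γ p).1 = γ • p.1`, `Φ u (lft γ p) = lft γ (Φ u p)`, `Ep G (lft γ p) = Ep G p`) we may assume `p.1 ∈ K`. `‖(Φ u p).1 - p.1‖ ≥ |u| ‖vel‖ - C u² ≥ |u|/(2 C)` for `|u| ≤ c0`, and it is `≤ C |u| ≤ 1`; so both points are in `cthickening 1 K`: `‖..‖ ≤ dV` (UNK). -/
def USP_stmt : Prop := ∀ (d : ℕ) (Γ : Type) [Group Γ] [MulAction Γ (V d)] (K : Set (V d)) (k : ℝ) (B : ℕ → ℕ → ℝ) (χ : V d → ℝ), FdK Γ K → Ctf K χ → ∃ C c0 : ℝ, 1 ≤ C ∧ 0 < c0 ∧ c0 ≤ 1 / 8 ∧ ∀ (G : V d → V d →L[ℝ] V d) (Φ : ℝ → P d → P d), Cls Γ K k B G → IsFlow G Φ →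
  ∀ (p : P d) (u : ℝ), |Ep G p| ≤ c0 → |u| ≤ c0 → |u| ≤ C * dV Γ χ p.1 (Φ u p).1

/-- **Row UTP** (TWO GEODESICS WHICH ARE CLOSE AT TWO TIMES; medium; from UTA, UVL, UNK, DVV, DPP, GEQ, GHL). `C1` = the maximum of the constants of UTA, UVL, UNK (for `m` of UNK), `C` large, `c0` small compared with `C1`. By invariance `p.1 ∈ K` (replace `p`, `q` by `lft γ p`, `lft γ q`; `rev (lft γ q) = lft γ (rev q)`: `inverse` of a continuous linear map is linear).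
(1) `‖p.1 - q.1‖ ≤ C1 δ` (UNK); `x = (Φ u p).1`, `y = (Φ u' q).1` satisfy `‖x - p.1‖ ≤ C1 u`, `‖y - q.1‖ ≤ C1 |u'|`, so for small `c0` all four points are in `cthickening 1 K` (within `1` of `p.1 ∈ K`; `q.1` in the ball of radius `m`) and `‖x - y‖ ≤ dV x y ≤ δ`. (2) UTA: `‖u • vp - u' • vq‖ ≤ ‖x - y‖ + ‖p.1 - q.1‖ + C1 (u² + u'²) ≤ 2 C1 (δ + u² + u'²)`, `vp = vel G p`, `vq = vel G q`.
(3) `|u'| ‖vq‖ ≤ u ‖vp‖ + 2 C1 (δ + u² + u'²)`, `‖vq‖ ≥ 1/C1`, `2 C1² |u'| ≤ 1/2`, `δ ≤ u`: `|u'| ≤ C2 u`; so (2) is `≤ C3 (δ + u²)`. (4) norm `N w = sqrt ⟪G p.1 w, w⟫` (a norm: `G p.1` is symmetric and positive; `N w ≤ C1 ‖w‖`): `|N vp - 1| ≤ 2 e` (`(N vp)² = 1 + 2 Ep G p`), `(N vq)² = 1 + 2 Ep G q + ⟪(G p.1 - G q.1) vq, vq⟫`, so `|N vq - 1| ≤ 2 e + C3 δ`.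
`|u N vp - |u'| N vq| ≤ N (u vp - u' vq) ≤ C3 (δ + u²)`, so `|u - |u'|| ≤ C4 (δ + u² + e u)`. (5) `σ = 1` if `0 ≤ u'`, `σ = -1` otherwise, `u' = σ |u'|`: `u ‖vp - σ vq‖ ≤ ‖u vp - u' vq‖ + |u' - σ u| ‖vq‖ ≤ C5 (δ + u² + e u)`, divide by `u`. (6) `p.2 = G p.1 vp`, `q.2 = G q.1 vq`: `‖p.2 - σ q.2‖ ≤ C6 (δ/u + u + e)` (`δ ≤ δ/u`). So `‖p - q‖` or `‖p - rev q‖` is `≤ C7 (..)`; the upper bound of DPP (`r` = the bound of `‖p.2‖`). -/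
def UTP_stmt : Prop := ∀ (d : ℕ) (Γ : Type) [Group Γ] [MulAction Γ (V d)] (K : Set (V d)) (k : ℝ) (B : ℕ → ℕ → ℝ) (χ : V d → ℝ), FdK Γ K → Ctf K χ → ∃ C c0 : ℝ, 1 ≤ C ∧ 0 < c0 ∧ c0 ≤ 1 / 8 ∧ ∀ (G : V d → V d →L[ℝ] V d) (Φ : ℝ → P d → P d), Cls Γ K k B G → IsFlow G Φ →
  ∀ (p q : P d) (u u' δ e : ℝ), |Ep G p| ≤ e → |Ep G q| ≤ e → e ≤ c0 → 0 < u → u ≤ c0 → |u'| ≤ c0 → 0 ≤ δ → C * δ ≤ u → dV Γ χ p.1 q.1 ≤ δ → dV Γ χ (Φ u p).1 (Φ u' q).1 ≤ δ →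
    dP Γ χ p q ≤ C * (δ / u + u + e) ∨ dP Γ χ p (rev q) ≤ C * (δ / u + u + e)

/-- **Row UOK** (THE INSTANCE; medium, many short parts; from DPP, DVV, DGR, GLF, GHL, GUN, GEQ, UVL, USP, UTP, ITA). `C`, `c0` = maximum, minimum of the constants of DGR, USP, UTP, DVV (`c`), and `2`; every field is monotone in `C` and `c0` (`dV, dP ≥ 0`). Fields: `dX*` DVV, `dS*` DPP, `inj` DVV, `psg`, `psr`, `rvr` by `rfl`, `psd` DVV, `rvg` (`(lft γ p).2` is linear in `p.2`: GLF), `rvd` DPP, `Eng` GHL, `Enr` UVL, `Enf` GUN,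
`fl0`, `fla` `IsFlow`, `flg` GEQ, `flr` GUN with `l = -1` (`rev (x, ξ) = (x, (-1) • ξ)`), `gro`, `sho` DGR (`nrm ≤ 3/2` by UVL; `s = 0`), `sep` USP, `two` UTP, `thn`, `th1`, `th2` ITA (`th1`: `l ≤ C · (1/2) ∫` as `C ≥ 2`). -/
def UOK_stmt : Prop := ∀ (d : ℕ) (Γ : Type) [Group Γ] [MulAction Γ (V d)] (K : Set (V d)) (k : ℝ) (B : ℕ → ℕ → ℝ) (χ : V d → ℝ), FdK Γ K → Ctf K χ → ∃ C c0 : ℝ, 1 ≤ C ∧ 0 < c0 ∧ c0 ≤ 1 / 8 ∧ ∀ (G : V d → V d →L[ℝ] V d) (Φ : ℝ → P d → P d), Cls Γ K k B G → IsFlow G Φ →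
  ∀ (act : MulAction Γ (PhS Γ d)), (∀ (γ : Γ) (p : P d), act.smul γ p = lft γ p) → ∀ C' c0' : ℝ, C ≤ C' → 0 < c0' → c0' ≤ c0 → @OKS Γ (V d) (PhS Γ d) _ _ act C' c0' (SYD Γ χ G Φ)

/-- **Row NTA** (the nets of bumps; short-medium; from UNK, DVV). `bd`, `cont` clear (`NetD.smooth`, continuity of `Φ`). `cov`: `γ • x ∈ K`, `j` with `‖γ x - p j‖ ≤ ρ/4`; `dV x x' ≤ ρ/C'` gives `‖γ x - γ x'‖ ≤ C1 ρ/C' ≤ ρ/4` (UNK; `ρ/C' ≤ c0`), so `‖γ x' - p j‖ ≤ ρ/2`, `χ j x' = 1`.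
`sup`: `‖γ x - p j‖, ‖γ' x' - p j‖ ≤ ρ ≤ 1` (`NetD.supp`), both points are in `cthickening 1 K`, so `dV (γ x) (γ' x') ≤ C1 2 ρ` (UNK) `= dV x (γ⁻¹ γ' x')`. -/
def NTA_stmt : Prop := ∀ (d : ℕ) (Γ : Type) [Group Γ] [MulAction Γ (V d)] (K : Set (V d)) (χ : V d → ℝ), FdK Γ K → Ctf K χ → ∃ C : ℝ, 1 ≤ C ∧ ∀ (Cn : Set (V d) → ℕ → ℝ) (ρ : ℝ) (J : ℕ) (p : Fin J → V d) (b : Fin J → V d → ℝ) (G : V d → V d →L[ℝ] V d) (Φ : ℝ → P d → P d) (act : MulAction Γ (PhS Γ d)) (C' c0 : ℝ),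
  NetD Γ K Cn ρ J p b → 0 < ρ → ρ ≤ 1 → IsFlow G Φ → C ≤ C' → @NetA Γ (V d) (PhS Γ d) _ _ act C' c0 ρ (SYD Γ χ G Φ) J b

/-- **Row VBY** (the volume of small balls of the index set; medium; from DPP, UVL, GNR, GLF, GHL, GMP, DFD (`Γ` countable), DLL). If the set `A` of the statement is empty there is nothing to prove; otherwise let `y1 ∈ A ∩ GW`, so all `y' ∈ A` satisfy `dP (π y1) (π y') ≤ 2 s`, `π y = lft y.1 y.2` (`π y1` has bounded `|ξ|`). Let `γ0 • (π y1).1 ∈ K`, `q0 = lft γ0 (π y1)`, `‖q0.2‖ ≤ C` (`nrm` is invariant, UVL): DPP lower bound: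
`‖q0 - lft (γ0 y'.1) y'.2‖ ≤ C1 2 s ≤ 1`. So `γ0 y'.1` maps a point of the ball of radius `r0` (`‖y'.2.1‖ ≤ r0`) into `cthickening 1 K`: it is in a finite set `S` (`FdK.proper`), and `y'.2` is in the preimage under `lft (γ0 y'.1)` of the ball of radius `2 C1 s` around `q0`, whose measure is that of the ball (GMP), `≤ C s^(2 d)` (`Measure.addHaar_closedBall`, the dimension of `P d` is `2 d`).
The measure of `A` is at most the sum over the charts `y'.1 ∈ γ0⁻¹ S` (`mY` = counting measure times Lebesgue measure, `Γ` countable): `≤ #S C s^(2 d)`. -/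
def VBY_stmt : Prop := ∀ (d : ℕ) (Γ : Type) [Group Γ] [MulAction Γ (V d)] (K : Set (V d)) (k : ℝ) (B : ℕ → ℕ → ℝ) (χ : V d → ℝ) (r0 : ℝ), FdK Γ K → Ctf K χ → ∃ C R0 : ℝ, 1 ≤ C ∧ 1 ≤ R0 ∧ ∀ (G : V d → V d →L[ℝ] V d) (R s : ℝ) (y : YS Γ d), Cls Γ K k B G → R0 ≤ R → 0 < s → C * s ≤ 1 →
  mW Γ G r0 R {y' | dP Γ χ (lft y.1 y.2) (lft y'.1 y'.2) ≤ s} ≤ ENNReal.ofReal (C * s ^ (2 * d))

end

end Pool.Agent.VD
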