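import Pool.Agent.helper89.VD.PIGA
import Pool.Agent.helper43.VD.PIVA
import Pool.Agent.helper25.VD.CNVA
import Pool.Agent.helper66.VD.RCLA
import Pool.Agent.helper85.VD.CLSA
import Pool.Agent.helper40.VD.UNDA

/-!
# Project VD, block U (abstract detection with classes): assembly
-/

namespace Pool.Agent.VD

/-- the abstract detection theorem -/
theorem UNDA_all : UNDA_stmt := UNDA_proof (CLSA_proof (PIVA_proof PIGA_proof) (RCLA_proof CNVA_proof))

end Pool.Agent.VD
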