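import Pool.Agent.helper99.VD.SpecV
import Pool.Agent.helper11.VD.Spec3d
import Pool.Agent.helper11.VQ.Spec3b

/-!
# Row vd:UNDD (MP_07c750_an, project VD): the total volume of the undetected chains of big steps

Parameters for the abstract detection theorem `UNDA` (helper99/VD/SpecU.lean).
-/

set_option autoImplicit false

open scoped ContDiff Topology InnerProductSpace ENNReal
open MeasureTheory Filter Set

namespace Pool.Agent.VD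

open Pool.Agent.VQ (vz mZ)

noncomputable section

variable {d : ℕ}

theorem UNDD_adm (C C1 : ℝ) (A : Par) (hC : 1 ≤ C) (h : C1 ≤ C) (hA : Adm C A) : Adm C1 A ∧ 0 < A.z1 ∧ 0 < A.z2 := by
  have hC0 : 0 < C := by linarith
  have h1 : 0 < A.z1 := lt_of_lt_of_le (mul_pos hC0 hA.z) hA.z1
  have h2 : 0 < A.z2 := lt_of_lt_of_le (mul_pos hC0 h1) hA.z2
  exact ⟨⟨hA.e2, (mul_le_mul_of_nonneg_right h hA.e2.le).trans hA.e2', hA.z, (mul_le_mul_of_nonneg_right h hA.z.le).trans hA.z1,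
    (mul_le_mul_of_nonneg_right h h1.le).trans hA.z2, (mul_le_mul_of_nonneg_right h h2.le).trans hA.up⟩, h1, h2⟩

/-- the action on phase space by the lifts -/
@[reducible] def UNDD_act (Γ : Type) [Group Γ] [MulAction Γ (V d)] (h1 : ∀ p : P d, lft (1 : Γ) p = p) (h2 : ∀ (γ δ : Γ) (p : P d), lft (γ * δ) p = lft γ (lft δ p)) : MulAction Γ (PhS Γ d) where
  smul γ p := lft γ (show P d from p)
  one_smul p := h1 p
  mul_smul a b p := h2 a b p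

theorem UNDD_sf (Γ : Type) [Countable Γ] (G : V d → V d →L[ℝ] V d) (r0 R : ℝ) : SigmaFinite (mW Γ G r0 R) := by
  letI : MeasurableSpace Γ := ⊤
  haveI : MeasurableSingletonClass Γ := ⟨fun _ => trivial⟩
  haveI h1 : SigmaFinite (Measure.count : Measure Γ) := inferInstance
  haveI h2 : SigmaFinite (mY Γ d) := (inferInstance : SigmaFinite ((Measure.count : Measure Γ).prod (volume : Measure (P d))))
  unfold mW
  infer_instance

theorem UNDD_th {Γ : Type} [Group Γ] [MulAction Γ (V d)] (η : V d → ℝ) (G : V d → V d →L[ℝ] V d) (Φ : ℝ → P d → P d) (hE : ∀ (γ : Γ) (t : ℝ) (p : P d), Φ t (lft γ p) = lft γ (Φ t p))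
    (f : V d → ℝ) (hf : Inv Γ f) (κ t : ℝ) (N : ℕ) (w : ℕ → YS Γ d) : thA (SYD Γ η G Φ) f κ t N (prY ∘ w) = thD Φ f κ t N w := by
  unfold thA thD
  refine Finset.sum_congr rfl fun j _ => ?_
  have h1 : ∀ s : ℝ, f (Φ s (prY (w j))).1 = f (Φ s (w j).2).1 := by
    intro s
    unfold prY
    rw [hE]
    exact hf _ _
  show κ * (1 / 2 * ∫ s in (0 : ℝ)..t, f (Φ s (prY (w j))).1) = κ / 2 * ∫ s in (0 : ℝ)..t, f (Φ s (w j).2).1
  simp only [h1]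
  ring

theorem UNDD_proof (hUNDA : UNDA_stmt) (hUOK : UOK_stmt) (hNTA : NTA_stmt) (hVBY : VBY_stmt) (hI6D : I6D_stmt) (hIJPD : IJPD_stmt) (hRIGD : RIGD_stmt) (hPARV : VQ.PARV_stmt)
    (hDCT : DCT_stmt) (hGLF : GLF_stmt) (hGHL : GHL_stmt) (hGEQ : GEQ_stmt) (hDFD : DFD_stmt) : UNDD_stmt := by
  intro d Γ _ _ K r0 k B Cn hd hK hr0
  obtain ⟨η, hη⟩ := hDCT d K hK.compact
  obtain ⟨C1, c1, hC1, hc1, hc1', hok⟩ := hUOK d Γ K k B η hK hη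
  obtain ⟨C2, hC2, hnet⟩ := hNTA d Γ K η hK hη
  obtain ⟨Cr, eps, hCr, heps, hrig⟩ := hRIGD d Γ K r0 η k B hd hK hr0 hη
  obtain ⟨C6, hC6, hI6⟩ := hI6D d Γ K r0 k B hd hK hr0
  obtain ⟨C5, hC5, hI5⟩ := hIJPD d Γ K r0 η k B hd hK hr0 hη
  obtain ⟨CV, RV, hCV, hRV, hvb⟩ := hVBY d Γ K k B η r0 hK hη
  obtain ⟨Cc, hCc⟩ : ∃ Cc : ℝ, Cc = C1 + C2 := ⟨_, rfl⟩
  obtain ⟨C', ρ10, hC', hρ10, hρ108, hρ10c, hund⟩ := hUNDA Cc c1 (by linarith) hc1 (by linarith) eps heps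
  obtain ⟨hcnt, -⟩ := hDFD d Γ K hK
  obtain ⟨hl1, hl2, -⟩ := hGLF d Γ hK.smooth
  obtain ⟨C, hCdef⟩ : ∃ C : ℝ, C = (2 * d + 4) * Cr + C6 + C5 + C' + CV + 20 := ⟨_, rfl⟩
  have hd0 : (0 : ℝ) ≤ d := Nat.cast_nonneg d
  have hCrd : 4 * Cr ≤ (2 * d + 4) * Cr := by nlinarith
  have hC1' : 1 ≤ C := by linarith
  refine ⟨C, hC1', fun A N M1 hA hN hM1 => ?_⟩
  obtain ⟨hAr, hz1, hz2⟩ := UNDD_adm C Cr A hC1' (by linarith) hA
  have hA6 : Adm C6 A := (UNDD_adm C C6 A hC1' (by linarith) hA).1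
  have hA5 : Adm C5 A := (UNDD_adm C C5 A hC1' (by linarith) hA).1
  obtain ⟨a₀, R0p, ha₀, hR0p, hpar⟩ := hPARV N M1 C' ρ10 A.e2 hN hM1 hC' hρ10 hA.e2
  obtain ⟨R6, hR61, hR6⟩ := hI6 A hA6
  obtain ⟨R5, hR51, hR5⟩ := hI5 A hA5
  have hrig' : ∀ m : ℕ, ∃ Rm : ℝ, 1 ≤ Rm ∧ (1 ≤ m → ∀ (R : ℝ) (G : V d → V d →L[ℝ] V d) (Φ : ℝ → P d → P d), Rm ≤ R → Cls Γ K k B G → IsFlow G Φ →
      ∀ w w' : ℕ → YS Γ d, ChD G Φ r0 A R m w → ChD G Φ r0 A R m w' → w' 0 = w 0 → w' m = w m →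
      (∀ s : ℝ, 0 ≤ s → s < m * A.tu R → dP Γ η (frD Φ (A.tu R) w s) (frD Φ (A.tu R) w' s) ≤ eps) → ∀ j ≤ m, dP Γ η (prY (w j)) (prY (w' j)) ≤ R ^ (-(1 / 2) + Cr * A.z2)) := by
    intro m
    by_cases hm : 1 ≤ m
    · obtain ⟨Rm, h1, h2⟩ := hrig A m hAr hm
      exact ⟨Rm, h1, fun _ => h2⟩
    · exact ⟨1, le_rfl, fun h => absurd h hm⟩
  choose Rr hRr1 hRr using hrig'
  have f4 : ∀ᶠ R : ℝ in atTop, 2 ≤ R ^ (1 / 20 : ℝ) := (tendsto_rpow_atTop (by norm_num)).eventually (eventually_ge_atTop 2)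
  have f5 : ∀ᶠ R : ℝ in atTop, R ^ (-(1 / 4) : ℝ) ≤ 1 / CV := (tendsto_rpow_neg_atTop (by norm_num)).eventually (eventually_le_nhds (by positivity))
  have f6 : ∀ᶠ R : ℝ in atTop, CV ≤ R ^ A.z2 := (tendsto_rpow_atTop hz2).eventually (eventually_ge_atTop CV)
  have f7 : ∀ᶠ R : ℝ in atTop, C' + 2 ≤ Real.log R := Real.tendsto_log_atTop.eventually (eventually_ge_atTop (C' + 2))
  obtain ⟨R1, hR1⟩ := Filter.eventually_atTop.mp (f4.and (f5.and (f6.and f7)))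
  refine ⟨a₀ + 1, max (max R0p (max R6 (max R5 RV))) (max R1 (∑ m ∈ Finset.range (N + 1), Rr m)), by linarith, hR0p.trans ((le_max_left _ _).trans (le_max_left _ _)), ?_⟩
  intro R ρ κ J p χ G Φ hR hρ hρ' hκ hNet hG hΦ
  have hRp : R0p ≤ R := ((le_max_left _ _).trans (le_max_left _ _)).trans hR
  have hRx : max R6 (max R5 RV) ≤ R := ((le_max_right _ _).trans (le_max_left _ _)).trans hR
  have hRR6 : R6 ≤ R := (le_max_left _ _).trans hRx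
  have hRR5 : R5 ≤ R := ((le_max_left _ _).trans (le_max_right _ _)).trans hRx
  have hRRV : RV ≤ R := ((le_max_right _ _).trans (le_max_right _ _)).trans hRx
  obtain ⟨g4, g5, g6, g7⟩ := hR1 R (((le_max_left _ _).trans (le_max_right _ _)).trans hR)
  have hRsum : ∀ m ≤ N, Rr m ≤ R := by
    intro m hm
    have h1 : Rr m ≤ ∑ m ∈ Finset.range (N + 1), Rr m :=
      Finset.single_le_sum (f := Rr) (fun i _ => by linarith [hRr1 i]) (Finset.mem_range.2 (by omega))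
    exact h1.trans (((le_max_right _ _).trans (le_max_right _ _)).trans hR)
  have hR1' : 1 ≤ R := by linarith
  have hR0 : 0 < R := by linarith
  have hL : 1 ≤ Real.log R := by linarith
  have hL0 : 0 < Real.log R := by linarith
  have htu1 : A.e2 * Real.log R ≤ A.tu R := by
    unfold Par.tu Par.n
    exact (Nat.lt_floor_add_one _).le
  have htu2 : A.tu R ≤ A.e2 * Real.log R + 1 := by
    unfold Par.tu Par.n
    have := Nat.floor_le (mul_pos hA.e2 hL0).le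
    linarith
  have hE2 : A.e2 ≤ 1 / 2 := by
    have h1 := hA.e2'
    have h2 : 2 * A.e2 ≤ C * A.e2 := mul_le_mul_of_nonneg_right (by linarith) hA.e2.le
    linarith
  have ht2 : A.tu R ≤ Real.log R := by nlinarith
  have hρ1 : ρ ≤ 1 := hρ'.trans (Real.rpow_le_one_of_one_le_of_nonpos hL (by linarith))
  have hρ2 : C' * ρ / 32 ≤ (Real.log R) ^ (-(2 * a₀ + 2)) := by
    have e1 : (Real.log R) ^ (-(2 * (a₀ + 1) + 2)) = (Real.log R) ^ (-(2 * a₀ + 2)) * (Real.log R) ^ (-(2 : ℝ)) := by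
      rw [← Real.rpow_add hL0]
      congr 1
      ring
    have e2 : (Real.log R) ^ (-(2 : ℝ)) * Real.log R ≤ 1 := by
      nth_rewrite 2 [← Real.rpow_one (Real.log R)]
      rw [← Real.rpow_add hL0]
      exact Real.rpow_le_one_of_one_le_of_nonpos hL (by norm_num)
    have e3 : 0 < (Real.log R) ^ (-(2 * a₀ + 2)) := Real.rpow_pos_of_pos hL0 _
    have e4 : 0 < (Real.log R) ^ (-(2 : ℝ)) := Real.rpow_pos_of_pos hL0 _
    rw [e1] at hρ'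
    have e5 : C' * ρ ≤ Real.log R * ((Real.log R) ^ (-(2 * a₀ + 2)) * (Real.log R) ^ (-(2 : ℝ))) :=
      mul_le_mul (by linarith) hρ' hρ.le hL0.le
    have e6 : Real.log R * ((Real.log R) ^ (-(2 * a₀ + 2)) * (Real.log R) ^ (-(2 : ℝ))) = (Real.log R) ^ (-(2 * a₀ + 2)) * ((Real.log R) ^ (-(2 : ℝ)) * Real.log R) := by ring
    have e7 : (Real.log R) ^ (-(2 * a₀ + 2)) * ((Real.log R) ^ (-(2 : ℝ)) * Real.log R) ≤ (Real.log R) ^ (-(2 * a₀ + 2)) * 1 :=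
      mul_le_mul_of_nonneg_left e2 e3.le
    have e8 : 0 < C' * ρ := mul_pos (by linarith) hρ
    linarith
  obtain ⟨nc, hnc, hr1, hρρ, hlog, ht1, hpar2⟩ := hpar R (C' * ρ / 32) (A.tu R) hRp (by positivity) hρ2 htu1 ht2
  refine ⟨nc, hnc, ?_⟩
  intro N' hN' hN'N x y w hw0 hw
  have hr0' : 0 < R ^ (-(1 / 5) : ℝ) := Real.rpow_pos_of_pos hR0 _
  have hE : 2 * R ^ (-(1 / 4) : ℝ) ≤ R ^ (-(1 / 5) : ℝ) := by
    have e1 : R ^ (-(1 / 5) : ℝ) = R ^ (1 / 20 : ℝ) * R ^ (-(1 / 4) : ℝ) := by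
      rw [← Real.rpow_add hR0]
      norm_num
    rw [e1]
    exact mul_le_mul_of_nonneg_right g4 (Real.rpow_pos_of_pos hR0 _).le
  have hEq : ∀ (γ : Γ) (t : ℝ) (p : P d), Φ t (lft γ p) = lft γ (Φ t p) := hGEQ d Γ G Φ hG.met hK.smooth hG.isom hΦ
  have hEp : ∀ y : YS Γ d, Ep G (prY y) = Ep G y.2 := by
    intro y
    unfold Ep prY
    rw [((hGHL d Γ G hG.met hK.smooth hG.isom).1 y.1 y.2).1]
  have hWi : ∀ y : YS Γ d, y ∈ GW Γ G r0 2 R → |Ep G (prY y)| ≤ R ^ (-(1 / 5) : ℝ) := fun y hy => by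
    rw [hEp]
    exact hy.2.trans hE
  have hJP : ∀ w : ℕ → YS Γ d, ChD G Φ r0 A R N' w → JPA (SYD Γ η G Φ) (A.tu R) (R ^ (-(1 / 5) : ℝ)) N' (prY ∘ w) := by
    intro w hw j hj
    obtain ⟨h2, h3, _⟩ := hR6 R G Φ hRR6 hG hΦ _ _ (hw j hj)
    exact ⟨hR5 R G Φ hRR5 hG hΦ _ _ (hw j hj), hWi _ h2, hWi _ h3⟩
  obtain ⟨hp1, hp2⟩ := hpar2 N' hN' hN'N
  have hp1' : nc + C' * ((N' : ℝ) * A.tu R + 1) / (Real.log R) ^ (-a₀) ≤ (Real.log R) ^ (-a₀) / (C' * ρ) := by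
    have : 32 * (C' * ρ / 32) = C' * ρ := by ring
    rw [this] at hp1
    exact hp1
  have hKK : C' / ρ ≤ |κ| := (div_le_div_of_nonneg_right (by linarith) hρ.le).trans hκ
  have hr'0 : 0 < R ^ (-(1 / 2) + Cr * A.z2) := Real.rpow_pos_of_pos hR0 _
  have hCz : Cr * A.z2 ≤ 1 / 4 := by
    have h1 := hA.up
    have h3 : 4 * Cr * A.z2 ≤ C * A.z2 := mul_le_mul_of_nonneg_right (by linarith) hz2.le
    linarith
  have hr'4 : CV * R ^ (-(1 / 2) + Cr * A.z2) ≤ 1 := by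
    have h1 : R ^ (-(1 / 2) + Cr * A.z2) ≤ 1 / CV := le_trans (Real.rpow_le_rpow_of_exponent_le hR1' (by linarith)) g5
    have h2 : (0 : ℝ) < CV := by linarith
    rw [le_div_iff₀ h2] at h1
    linarith
  letI act : MulAction Γ (PhS Γ d) := UNDD_act Γ hl1 hl2
  haveI hsf : SigmaFinite (mW Γ G r0 R) := UNDD_sf Γ G r0 R
  have hOK : OKS Γ Cc c1 (SYD Γ η G Φ) := hok G Φ hG hΦ act (fun _ _ => rfl) Cc c1 (by linarith) hc1 le_rfl
  have hNA : NetA Γ Cc c1 ρ (SYD Γ η G Φ) χ := hnet Cn ρ J p χ G Φ act Cc c1 hNet hρ hρ1 hΦ (by linarith)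
  have hmain := hund Γ (V d) (PhS Γ d) (YS Γ d) (mW Γ G r0 R) (SYD Γ η G Φ) (prY (Γ := Γ) (d := d)) ρ ((Real.log R) ^ (-a₀)) (R ^ (-(1 / 5) : ℝ)) κ (A.tu R)
    (R ^ (-(1 / 2) + Cr * A.z2)) (ENNReal.ofReal (CV * (R ^ (-(1 / 2) + Cr * A.z2)) ^ (2 * d))) J N' nc χ (ChD G Φ r0 A R N') hOK hNA hN' hρ hr0' hr1 hρρ ht1 hlog hKK hp1'
    (fun γ z => hl2 γ z.1 z.2) hJP
    (fun w w' h1 h2 h3 h4 h5 => hRr N' hN' R G Φ (hRsum _ hN'N) hG hΦ w w' h1 h2 h3 h4 h5)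
    (fun z => hvb G R _ z hG hRRV hr'0 hr'4) x y w hw0 hw
  have hU : ∀ w w' : ℕ → YS Γ d, UndA (SYD Γ η G Φ) χ κ (A.tu R) N' nc (prY ∘ w) (prY ∘ w') ↔ UndD Φ χ κ (A.tu R) N' nc w w' := by
    intro w w'
    unfold UndA UndD
    simp only [UNDD_th η G Φ hEq _ (hNet.inv _)]
  simp only [hU] at hmain
  refine le_trans hmain ?_
  have hvol : CV * (R ^ (-(1 / 2) + Cr * A.z2)) ^ (2 * d) ≤ R ^ (-d + C * A.z2) := by
    have e1 : (R ^ (-(1 / 2) + Cr * A.z2)) ^ (2 * d) = R ^ (-d + 2 * d * Cr * A.z2) := by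
      rw [← Real.rpow_natCast, ← Real.rpow_mul hR0.le]
      congr 1
      push_cast
      ring
    rw [e1]
    have e2 : CV * R ^ (-d + 2 * d * Cr * A.z2) ≤ R ^ A.z2 * R ^ (-d + 2 * d * Cr * A.z2) :=
      mul_le_mul_of_nonneg_right g6 (Real.rpow_pos_of_pos hR0 _).le
    refine e2.trans ?_
    rw [← Real.rpow_add hR0]
    refine Real.rpow_le_rpow_of_exponent_le hR1' ?_
    have e3 : (2 * d * Cr + 1) * A.z2 ≤ C * A.z2 := mul_le_mul_of_nonneg_right (by linarith) hz2.le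
    linarith
  have hvol0 : 0 ≤ CV * (R ^ (-(1 / 2) + Cr * A.z2)) ^ (2 * d) := by positivity
  rw [← ENNReal.ofReal_pow hvol0, ← ENNReal.ofReal_mul ((Real.rpow_nonneg (by positivity) _))]
  refine ENNReal.ofReal_le_ofReal ?_
  exact mul_le_mul hp2 (pow_le_pow_left₀ hvol0 hvol _) (pow_nonneg hvol0 _) (Real.rpow_pos_of_pos hR0 _).le

end

end Pool.Agent.VD
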